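import Pool.Agent.Q289.DI.Det

/-!
# Determinants of killed permutation matrices
-/

set_option autoImplicit false

namespace Pool.Agent.Q289.DI

open Finset Equiv Matrix
open Pool.Agent.Y998.ST hiding E

section cyc

variable {V : Type} [Fintype V] [DecidableEq V]

/-- no cycle of `g` is contained in `A` -/
def Free (A : Finset V) (g : Perm V) : Prop := ∀ v ∈ A, ∃ n : ℕ, (g ^ n) v ∉ A

/-- the orbit of `x` leaves `A` at the point `y` -/
def ExitAt (A : Finset V) (g : Perm V) (x y : V) : Prop :=
  y ∉ A ∧ ∃ n : ℕ, (∀ k < n, (g ^ k) x ∈ A) ∧ (g ^ n) x = y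

/-- the kernel `P` killed off `A` -/
def stp (A : Finset V) (P : Matrix V V ℝ) : Matrix V V ℝ := fun a b => if a ∈ A then P a b else 0

/-- permutation matrix -/
def pm (g : Perm V) : Matrix V V ℝ := Matrix.of fun a b => if g a = b then 1 else 0

theorem stp_eq (A : Finset V) (P : Matrix V V ℝ) :
    stp A P = Matrix.diagonal (fun a => if a ∈ A then 1 else 0) * P := by
  ext a b
  rw [Matrix.diagonal_mul]
  unfold stp
  split_ifs <;> simp

/-- the matrix with the returning edge -/
noncomputable def NN (A : Finset V) (x y : V) (z : ℝ) (P : Matrix V V ℝ) : Matrix V V ℝ :=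
  1 - stp A P - z • vecMulVec (Pi.single y 1) (Pi.single x 1)

theorem NN_factor (A : Finset V) (x y : V) (z : ℝ) (P : Matrix V V ℝ) (h : V → ℝ)
    (hh : (1 - stp A P) *ᵥ h = Pi.single y 1) :
    (NN A x y z P).det = (1 - stp A P).det * (1 - z * h x) := by
  have h1 : NN A x y z P = (1 - stp A P) * (1 + replicateCol Unit (-z • h) *
      replicateRow Unit (Pi.single x (1 : ℝ))) := by
    unfold NN
    rw [Matrix.mul_add, Matrix.mul_one, ← Matrix.mul_assoc, sub_eq_add_neg (1 - stp A P)]
    congr 1
    have h2 : (1 - stp A P) * replicateCol Unit (-z • h) =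
        replicateCol Unit (-z • (Pi.single y 1 : V → ℝ)) := by
      rw [← hh, ← Matrix.mulVec_smul]
      ext i j
      simp [Matrix.mul_apply, mulVec, dotProduct]
    rw [h2]
    ext i j
    simp [Matrix.mul_apply, vecMulVec_apply, mul_assoc]
  rw [h1, det_mul, det_one_add_replicateCol_mul_replicateRow]
  congr 1
  simp [sub_eq_add_neg]

theorem left_kernel {A : Finset V} {g : Perm V} (h : ¬ Free A g) : ∃ w : V → ℝ, w ≠ 0 ∧
    (∀ a, a ∉ A → w a = 0) ∧ w ᵥ* (1 - stp A (pm g)) = 0 := by
  classical
  unfold Free at h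
  push Not at h
  obtain ⟨v, hv, hn⟩ := h
  have hC : ∀ c, g.SameCycle v c → c ∈ A := by
    intro c hc
    obtain ⟨i, _, hi⟩ := hc.exists_pow_eq'
    rw [← hi]
    exact hn i
  refine ⟨fun a => if g.SameCycle v a then 1 else 0, ?_, ?_, ?_⟩
  · intro h
    have := congrFun h v
    simp only [Perm.SameCycle.refl, if_true, Pi.zero_apply, one_ne_zero] at this
  · intro a ha
    exact if_neg fun h => ha (hC _ h)
  · funext b
    have hgb : g (g⁻¹ b) = b := by
      rw [← Perm.mul_apply, mul_inv_cancel, Perm.one_apply]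
    have hinv : g.SameCycle v (g⁻¹ b) ↔ g.SameCycle v b := by
      conv_rhs => rw [← hgb]
      exact Perm.sameCycle_apply_right.symm
    rw [Matrix.vecMul_sub, Matrix.vecMul_one, Pi.sub_apply]
    have h2 : ((fun a => if g.SameCycle v a then (1 : ℝ) else 0) ᵥ* stp A (pm g)) b =
        if g.SameCycle v b then 1 else 0 := by
      simp only [vecMul, dotProduct]
      rw [Finset.sum_eq_single (g⁻¹ b)]
      · unfold stp pm
        simp only [Matrix.of_apply, hgb, if_true]
        by_cases hb : g.SameCycle v b
        · have h3 := hinv.2 hb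
          rw [if_pos h3, if_pos (hC _ h3), if_pos hb, one_mul]
        · rw [if_neg (fun h => hb (hinv.1 h)), if_neg hb, zero_mul]
      · intro a _ ha
        have h3 : g a ≠ b := fun h => ha (by
          rw [← h, ← Perm.mul_apply, inv_mul_cancel, Perm.one_apply])
        unfold stp pm
        simp only [Matrix.of_apply, if_neg h3]
        split_ifs <;> simp
      · intro h; exact absurd (Finset.mem_univ _) h
    rw [h2]
    simp

/-- If a cycle of `g` is contained in `A` the determinant vanishes. -/
theorem det_not_free {A : Finset V} {g : Perm V} (h : ¬ Free A g) (x y : V) (hy : y ∉ A) (z : ℝ) :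
    (NN A x y z (pm g)).det = 0 := by
  obtain ⟨w, hw0, hwA, hw⟩ := left_kernel h
  rw [← Matrix.exists_vecMul_eq_zero_iff]
  refine ⟨w, hw0, ?_⟩
  unfold NN
  rw [Matrix.vecMul_sub, hw, zero_sub, neg_eq_zero]
  funext b
  simp only [vecMul, dotProduct, Matrix.smul_apply, vecMulVec_apply, smul_eq_mul, Pi.zero_apply]
  refine Finset.sum_eq_zero fun a _ => ?_
  by_cases ha : a = y
  · subst ha
    rw [hwA _ hy, zero_mul]
  · rw [Pi.single_eq_of_ne ha, zero_mul, mul_zero, mul_zero]

theorem det_not_free' {A : Finset V} {g : Perm V} (h : ¬ Free A g) :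
    (1 - stp A (pm g) : Matrix V V ℝ).det = 0 := by
  obtain ⟨w, hw0, _, hw⟩ := left_kernel h
  rw [← Matrix.exists_vecMul_eq_zero_iff]
  exact ⟨w, hw0, hw⟩

/-- If no cycle of `g` is contained in `A` the matrix `1 - stp A (pm g)` is unipotent. -/
theorem det_free {A : Finset V} {g : Perm V} (h : Free A g) :
    (1 - stp A (pm g) : Matrix V V ℝ).det = 1 := by
  classical
  have hex : ∀ a : V, ∃ n : ℕ, (g ^ n) a ∉ A := by
    intro a
    by_cases ha : a ∈ A
    · exact h a ha
    · exact ⟨0, by simpa using ha⟩
  obtain ⟨τ, hτ⟩ : ∃ τ : V → ℕ, ∀ a, τ a = Nat.find (hex a) := ⟨_, fun _ => rfl⟩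
  have hstep : ∀ a ∈ A, τ (g a) < τ a := by
    intro a ha
    have h1 : (g ^ τ a) a ∉ A := by rw [hτ]; exact Nat.find_spec (hex a)
    have h2 : τ a ≠ 0 := by
      intro h0
      rw [h0] at h1
      exact h1 (by simpa using ha)
    obtain ⟨m, hm⟩ := Nat.exists_eq_succ_of_ne_zero h2
    have h3 : (g ^ m) (g a) ∉ A := by
      rw [hm, Nat.succ_eq_add_one, pow_succ, Perm.mul_apply] at h1
      exact h1
    have h4 : τ (g a) ≤ m := by rw [hτ]; exact Nat.find_min' _ h3
    omega
  have hne : ∀ a b : V, (1 - stp A (pm g) : Matrix V V ℝ) a b ≠ 0 → a ≠ b → τ b < τ a := by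
    intro a b hab hne
    rw [Matrix.sub_apply, Matrix.one_apply_ne hne] at hab
    unfold stp pm at hab
    simp only [Matrix.of_apply] at hab
    by_cases ha : a ∈ A
    · rw [if_pos ha] at hab
      by_cases hb : g a = b
      · rw [← hb]; exact hstep a ha
      · rw [if_neg hb] at hab; simp at hab
    · rw [if_neg ha] at hab; simp at hab
  have hdiag : ∀ a : V, (1 - stp A (pm g) : Matrix V V ℝ) a a = 1 := by
    intro a
    rw [Matrix.sub_apply, Matrix.one_apply_eq]
    unfold stp pm
    simp only [Matrix.of_apply]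
    by_cases ha : a ∈ A
    · rw [if_pos ha]
      by_cases hb : g a = a
      · have := hstep a ha
        rw [hb] at this
        exact absurd this (lt_irrefl _)
      · rw [if_neg hb, sub_zero]
    · rw [if_neg ha, sub_zero]
  rw [det_apply', Finset.sum_eq_single 1]
  · simp only [Perm.sign_one, Units.val_one, Int.cast_one, one_mul, Perm.one_apply, hdiag,
      Finset.prod_const_one]
  · intro σ _ hσ
    by_contra hcon
    have h1 : ∀ i, (1 - stp A (pm g) : Matrix V V ℝ) (σ i) i ≠ 0 := by
      intro i hi
      exact hcon (mul_eq_zero_of_right _ (Finset.prod_eq_zero (Finset.mem_univ i) hi))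
    have h2 : ∀ i ∈ (Finset.univ : Finset V), τ i ≤ τ (σ i) := by
      intro i _
      by_cases hi : σ i = i
      · rw [hi]
      · exact (hne _ _ (h1 i) hi).le
    have h3 : ∑ i, τ i = ∑ i, τ (σ i) := (Equiv.sum_comp σ τ).symm
    have h4 := (Finset.sum_eq_sum_iff_of_le h2).1 h3
    apply hσ
    ext i
    rw [Perm.one_apply]
    by_contra hi
    have h5 := hne _ _ (h1 i) hi
    have h6 := h4 i (Finset.mem_univ _)
    omega
  · intro h; exact absurd (Finset.mem_univ _) h

open Classical in
theorem det_pm' (A : Finset V) (g : Perm V) :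
    (1 - stp A (pm g) : Matrix V V ℝ).det = if Free A g then 1 else 0 := by
  by_cases hf : Free A g
  · rw [det_free hf, if_pos hf]
  · rw [det_not_free' hf, if_neg hf]

open Classical in
theorem det_pm (A : Finset V) (g : Perm V) (x y : V) (hy : y ∉ A) (z : ℝ) :
    (NN A x y z (pm g)).det = (if Free A g then 1 else 0) -
      z * (if Free A g ∧ ExitAt A g x y then 1 else 0) := by
  by_cases hf : Free A g
  · obtain ⟨h, hh⟩ : ∃ h : V → ℝ, h = fun a => if ∃ n : ℕ, (∀ k < n, (g ^ k) a ∈ A) ∧
      (g ^ n) a = y then 1 else 0 := ⟨_, rfl⟩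
    have h1 : (1 - stp A (pm g)) *ᵥ h = Pi.single y 1 := by
      funext a
      rw [Matrix.sub_mulVec, Matrix.one_mulVec, Pi.sub_apply]
      by_cases ha : a ∈ A
      · have h2 : (stp A (pm g) *ᵥ h) a = h (g a) := by
          simp only [mulVec, dotProduct]
          unfold stp pm
          simp only [if_pos ha, Matrix.of_apply, ite_mul, one_mul, zero_mul]
          rw [Finset.sum_ite_eq, if_pos (Finset.mem_univ _)]
        have h3 : (∃ n : ℕ, (∀ k < n, (g ^ k) a ∈ A) ∧ (g ^ n) a = y) ↔
            (∃ n : ℕ, (∀ k < n, (g ^ k) (g a) ∈ A) ∧ (g ^ n) (g a) = y) := by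
          constructor
          · rintro ⟨n, hn, hn'⟩
            cases n with
            | zero => exact absurd ha (by rw [pow_zero, Perm.one_apply] at hn'; rwa [hn'])
            | succ n =>
              refine ⟨n, fun k hk => ?_, ?_⟩
              · have := hn (k + 1) (by omega)
                rwa [pow_succ, Perm.mul_apply] at this
              · rwa [pow_succ, Perm.mul_apply] at hn'
          · rintro ⟨n, hn, hn'⟩
            refine ⟨n + 1, fun k hk => ?_, ?_⟩
            · cases k with
              | zero => simpa using ha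
              | succ k => rw [pow_succ, Perm.mul_apply]; exact hn k (by omega)
            · rw [pow_succ, Perm.mul_apply]; exact hn'
        have h4 : h a = h (g a) := by
          rw [hh]
          simp only [h3]
        rw [h2, h4, sub_self, Pi.single_eq_of_ne (fun h => hy (by rwa [← h]))]
      · have h2 : (stp A (pm g) *ᵥ h) a = 0 := by
          simp only [mulVec, dotProduct]
          unfold stp
          simp only [if_neg ha, zero_mul, Finset.sum_const_zero]
        have h3 : (∃ n : ℕ, (∀ k < n, (g ^ k) a ∈ A) ∧ (g ^ n) a = y) ↔ a = y := by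
          constructor
          · rintro ⟨n, hn, hn'⟩
            cases n with
            | zero => simpa using hn'
            | succ n => exact absurd (by simpa using hn 0 (by omega)) ha
          · intro h
            exact ⟨0, fun k hk => absurd hk (by omega), by simpa using h⟩
        rw [h2, sub_zero, hh]
        simp only [h3]
        by_cases hay : a = y
        · rw [if_pos hay, hay, Pi.single_eq_same]
        · rw [if_neg hay, Pi.single_eq_of_ne hay]
    rw [NN_factor A x y z (pm g) h h1, det_free hf, if_pos hf, one_mul]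
    congr 2
    rw [hh]
    have h2 : ExitAt A g x y ↔ ∃ n : ℕ, (∀ k < n, (g ^ k) x ∈ A) ∧ (g ^ n) x = y :=
      ⟨fun h => h.2, fun h => ⟨hy, h⟩⟩
    simp only [h2, hf, true_and]
  · rw [det_not_free hf x y hy z, if_neg hf, if_neg (fun h => hf h.1)]
    ring

end cyc

end Pool.Agent.Q289.DI
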