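import Pool.Agent.Y998.ST.Torus

/-!
# The determinantal identity for the random stirring process

`E det (A + B Σ_t) = det (A + B P_t)` for the permutation matrix `Σ_t` of random stirring at time `t`
and the heat kernel `P_t = E Σ_t`.
-/

set_option autoImplicit false

namespace Pool.Agent.Q289.DI

open Finset Equiv Matrix
open Pool.Agent.Y998.ST hiding E

section line

variable {V : Type} [Fintype V] [DecidableEq V]

theorem det_line_aux (X : Matrix V V ℝ) (u v : V → ℝ) : ∃ κ : ℝ, ∀ s : ℝ,
    (X + s • vecMulVec u v).det = X.det + s * κ := by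
  refine ⟨(fromBlocks X (replicateCol Unit u) (-(replicateRow Unit v)) 0).det, fun s => ?_⟩
  have h1 : (X + s • vecMulVec u v).det =
      (fromBlocks X (replicateCol Unit (s • u)) (-(replicateRow Unit v)) 1).det := by
    rw [det_fromBlocks_one₂₂]
    congr 1
    ext i j
    simp [Matrix.mul_apply, vecMulVec_apply]
  have h2 : fromBlocks X (replicateCol Unit (s • u)) (-(replicateRow Unit v)) 1 =
      (fromBlocks X (0 : Matrix V Unit ℝ) (-(replicateRow Unit v)) 1).updateCol (Sum.inr ())
        (s • (Sum.elim u (fun _ => (0 : ℝ))) + Sum.elim (fun _ => (0 : ℝ)) (fun _ => (1 : ℝ))) := by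
    ext i j
    rcases i with i | i <;> rcases j with j | j <;> simp
  have h3 : (fromBlocks X (0 : Matrix V Unit ℝ) (-(replicateRow Unit v)) 1).updateCol (Sum.inr ())
        (Sum.elim u (fun _ => (0 : ℝ))) =
      fromBlocks X (replicateCol Unit u) (-(replicateRow Unit v)) 0 := by
    ext i j
    rcases i with i | i <;> rcases j with j | j <;> simp
  have h4 : (fromBlocks X (0 : Matrix V Unit ℝ) (-(replicateRow Unit v)) 1).updateCol (Sum.inr ())
        (Sum.elim (fun _ => (0 : ℝ)) (fun _ => (1 : ℝ))) =
      fromBlocks X (0 : Matrix V Unit ℝ) (-(replicateRow Unit v)) 1 := by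
    ext i j
    rcases i with i | i <;> rcases j with j | j <;> simp
  rw [h1, h2, det_updateCol_add, det_updateCol_smul, h3, h4, det_fromBlocks_zero₁₂, det_one,
    mul_one]
  ring

/-- The determinant is affine along rank one lines. -/
theorem det_line (X : Matrix V V ℝ) (u v : V → ℝ) (s : ℝ) :
    (X + s • vecMulVec u v).det = X.det + s * ((X + vecMulVec u v).det - X.det) := by
  obtain ⟨κ, hκ⟩ := det_line_aux X u v
  have h1 := hκ 1
  rw [one_smul, one_mul] at h1
  rw [hκ s, h1]
  ring

/-- the functional `M ↦ det (A + B M)` on functions of two variables -/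
noncomputable def ff (A B : Matrix V V ℝ) (m : V → V → ℝ) : ℝ := (A + B * Matrix.of m).det

theorem ff_diff (A B : Matrix V V ℝ) : Differentiable ℝ (ff A B) := by
  unfold ff
  have h : (fun m : V → V → ℝ => (A + B * Matrix.of m).det) = fun m =>
      ∑ σ : Perm V, ((Equiv.Perm.sign σ : ℤ) : ℝ) * ∏ i, (A (σ i) i + ∑ j, B (σ i) j * m j i) := by
    funext m
    rw [det_apply']
    refine Finset.sum_congr rfl fun σ _ => ?_
    congr 1
  rw [h]
  fun_prop

/-- Derivative of `ff` along a curve whose velocity is a combination of rank one matrices. -/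
theorem ff_deriv (A B : Matrix V V ℝ) {ι : Type} (I : Finset ι) (c : ι → ℝ) (u v : ι → V → ℝ)
    (M : ℝ → V → V → ℝ) (t : ℝ)
    (hM : ∀ a b, HasDerivAt (fun s => M s a b) (∑ i ∈ I, c i * (u i a * v i b)) t) :
    HasDerivAt (fun s => ff A B (M s))
      (∑ i ∈ I, c i * (ff A B (fun a b => M t a b + u i a * v i b) - ff A B (M t))) t := by
  have h1 : HasDerivAt M (fun a b => ∑ i ∈ I, c i * (u i a * v i b)) t := by
    rw [hasDerivAt_pi]
    intro a
    rw [hasDerivAt_pi]
    intro b
    exact hM a b
  have h2 := ((ff_diff A B) (M t)).hasFDerivAt.comp_hasDerivAt t h1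
  refine h2.congr_deriv ?_
  have h3 : (fun a b => ∑ i ∈ I, c i * (u i a * v i b)) =
      ∑ i ∈ I, c i • (fun a b => u i a * v i b : V → V → ℝ) := by
    funext a b
    simp [Finset.sum_apply]
  rw [h3, map_sum]
  refine Finset.sum_congr rfl fun i _ => ?_
  rw [map_smul, smul_eq_mul]
  congr 1
  -- the derivative in a rank one direction
  have h4 : HasDerivAt (fun s : ℝ => M t + s • (fun a b => u i a * v i b : V → V → ℝ))
      (fun a b => u i a * v i b) 0 := by
    have h5 := ((hasDerivAt_id (0 : ℝ)).smul_const
      (fun a b => u i a * v i b : V → V → ℝ)).const_add (M t)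
    simpa using h5
  have h5 : HasDerivAt (fun s : ℝ => ff A B (M t + s • (fun a b => u i a * v i b : V → V → ℝ)))
      (fderiv ℝ (ff A B) (M t) (fun a b => u i a * v i b)) 0 := by
    have h6 : HasFDerivAt (ff A B) (fderiv ℝ (ff A B) (M t))
        ((fun s : ℝ => M t + s • (fun a b => u i a * v i b : V → V → ℝ)) 0) := by
      simp only [zero_smul, add_zero]
      exact ((ff_diff A B) (M t)).hasFDerivAt
    exact h6.comp_hasDerivAt 0 h4
  have h6 : (fun s : ℝ => ff A B (M t + s • (fun a b => u i a * v i b : V → V → ℝ))) =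
      fun s => ff A B (M t) + s * (ff A B (fun a b => M t a b + u i a * v i b) -
        ff A B (M t)) := by
    funext s
    have h7 := det_line (A + B * Matrix.of (M t)) (B *ᵥ u i) (v i) s
    have h8 : ∀ s : ℝ, A + B * Matrix.of (M t + s • (fun a b => u i a * v i b : V → V → ℝ)) =
        A + B * Matrix.of (M t) + s • vecMulVec (B *ᵥ u i) (v i) := by
      intro s
      ext a b
      simp only [Matrix.add_apply, Matrix.mul_apply, Matrix.of_apply, Pi.add_apply, Pi.smul_apply,
        smul_eq_mul, Matrix.smul_apply, vecMulVec_apply, mulVec, dotProduct]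
      rw [add_assoc, Finset.sum_mul, Finset.mul_sum, ← Finset.sum_add_distrib]
      congr 1
      refine Finset.sum_congr rfl fun j _ => ?_
      ring
    have h9 : (fun a b => M t a b + u i a * v i b) =
        M t + (1 : ℝ) • (fun a b => u i a * v i b : V → V → ℝ) := by
      rw [one_smul]
      rfl
    unfold ff
    rw [h9, h8, h8, h7, one_smul]
  have h7 : HasDerivAt (fun s : ℝ => ff A B (M t) + s * (ff A B (fun a b => M t a b +
      u i a * v i b) - ff A B (M t))) (ff A B (fun a b => M t a b + u i a * v i b) -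
        ff A B (M t)) 0 := by
    have h8 := ((hasDerivAt_id (0 : ℝ)).mul_const (ff A B (fun a b => M t a b + u i a * v i b) -
        ff A B (M t))).const_add (ff A B (M t))
    simpa using h8
  rw [h6] at h5
  exact h5.unique h7

end line

section ident

variable {V : Type} [Fintype V] [DecidableEq V]

theorem GG_symm {J : V → V → ℝ} (hs : ∀ x y, J x y = J y x) (a b : V) : GG J a b = GG J b a := by
  unfold GG
  by_cases h : a = b
  · subst h; rfl
  · rw [if_neg h, if_neg (Ne.symm h), hs a b]

theorem qq_eq_E {J : V → V → ℝ} (hs : ∀ x y, J x y = J y x) (h0 : ∀ x, J x x = 0) (t : ℝ) :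
    qq J t = Pool.Agent.Y998.ST.E (GG J) t := eq_E (qq_deriv hs h0) (qq_zero J) t

/-- Kolmogorov's backward equation for the kernel of one particle. -/
theorem qq_back {J : V → V → ℝ} (hs : ∀ x y, J x y = J y x) (h0 : ∀ x, J x x = 0) (t : ℝ)
    (z b : V) : HasDerivAt (fun u => qq J u z b)
      (∑ x, ∑ y, J x y / 2 * (qq J t (swap x y z) b - qq J t z b)) t := by
  have h1 := E_deriv (GG J) t z b
  have h2 : (fun u => qq J u z b) = fun u => Pool.Agent.Y998.ST.E (GG J) u z b := by
    funext u; rw [qq_eq_E hs h0]
  rw [h2]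
  refine h1.congr_deriv ?_
  have h3 := gen_one hs h0 (fun c => qq J t c b) z
  rw [h3, Matrix.mul_apply, ← qq_eq_E hs h0]
  refine Finset.sum_congr rfl fun c _ => ?_
  rw [GG_symm hs, mul_comm]

/-- the functional at the permutation `g` followed by the kernel `P_s` -/
noncomputable def FF (J : V → V → ℝ) (A B : Matrix V V ℝ) (s : ℝ) (g : Perm V) : ℝ :=
  ff A B fun a b => qq J s (g a) b

theorem FF_deriv {J : V → V → ℝ} (hs : ∀ x y, J x y = J y x) (h0 : ∀ x, J x x = 0)
    (A B : Matrix V V ℝ) (s : ℝ) (g : Perm V) :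
    HasDerivAt (fun s => FF J A B s g)
      (∑ x, ∑ y, J x y / 2 * (FF J A B s (swap x y * g) - FF J A B s g)) s := by
  have h1 := ff_deriv A B (Finset.univ : Finset (V × V)) (fun p => J p.1 p.2 / 2)
    (fun p a => (if g a = p.1 then 1 else 0) - (if g a = p.2 then 1 else 0))
    (fun p b => qq J s p.2 b - qq J s p.1 b) (fun s a b => qq J s (g a) b) s (fun a b => by
      refine (qq_back hs h0 s (g a) b).congr_deriv ?_
      rw [Fintype.sum_prod_type]
      refine Finset.sum_congr rfl fun x _ => Finset.sum_congr rfl fun y _ => ?_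
      congr 1
      by_cases h1 : g a = x
      · by_cases h2 : g a = y
        · rw [if_pos h1, if_pos h2, ← h1, ← h2, swap_self]
          simp
        · rw [if_pos h1, if_neg h2, h1, swap_apply_left]
          ring
      · by_cases h2 : g a = y
        · rw [if_neg h1, if_pos h2, h2, swap_apply_right]
          ring
        · rw [if_neg h1, if_neg h2, swap_apply_of_ne_of_ne h1 h2]
          ring)
  refine h1.congr_deriv ?_
  rw [Fintype.sum_prod_type]
  refine Finset.sum_congr rfl fun x _ => Finset.sum_congr rfl fun y _ => ?_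
  unfold FF
  congr 2
  congr 1
  funext a b
  rw [Perm.mul_apply]
  by_cases h1 : g a = x
  · by_cases h2 : g a = y
    · rw [if_pos h1, if_pos h2, ← h1, ← h2, swap_self]
      simp
    · rw [if_pos h1, if_neg h2, h1, swap_apply_left]
      ring
  · by_cases h2 : g a = y
    · rw [if_neg h1, if_pos h2, h2, swap_apply_right]
      ring
    · rw [if_neg h1, if_neg h2, swap_apply_of_ne_of_ne h1 h2]
      ring

/-- The determinantal identity. -/
theorem exp_det {J : V → V → ℝ} (hs : ∀ x y, J x y = J y x) (h0 : ∀ x, J x x = 0)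
    (A B : Matrix V V ℝ) (t : ℝ) :
    stirExp J t (fun g => (A + B * Matrix.of fun a b => if g a = b then 1 else 0).det) =
      (A + B * qq J t).det := by
  obtain ⟨H, hH⟩ : ∃ H : ℝ → ℝ, H = fun r => ∑ g, stirLaw J r g * FF J A B (t - r) g := ⟨_, rfl⟩
  have hd : ∀ r, HasDerivAt H 0 r := by
    intro r
    have h1 : ∀ g, HasDerivAt (fun r => FF J A B (t - r) g)
        (-(∑ x, ∑ y, J x y / 2 * (FF J A B (t - r) (swap x y * g) - FF J A B (t - r) g))) r := by
      intro g
      have h2 := (FF_deriv hs h0 A B (t - r) g).scomp r ((hasDerivAt_id' r).const_sub t)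
      rwa [neg_smul, one_smul] at h2
    have h2 := HasDerivAt.fun_sum (u := (Finset.univ : Finset (Perm V))) fun g _ =>
      (law_deriv J r g).mul (h1 g)
    rw [hH]
    refine h2.congr_deriv ?_
    rw [Finset.sum_add_distrib]
    have h3 : ∑ g, (∑ x, ∑ y, J x y / 2 * (stirLaw J r (swap x y * g) - stirLaw J r g)) *
        FF J A B (t - r) g = ∑ x, ∑ y, J x y / 2 * (stirExp J r (fun g => FF J A B (t - r)
          (swap x y * g)) - stirExp J r (FF J A B (t - r))) := by
      have h4 := exp_deriv J r (FF J A B (t - r))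
      have h5 := HasDerivAt.fun_sum (u := (Finset.univ : Finset (Perm V))) fun g _ =>
        (law_deriv J r g).mul_const (FF J A B (t - r) g)
      exact h5.unique h4
    rw [h3]
    have h4 : ∑ g, stirLaw J r g * -(∑ x, ∑ y, J x y / 2 * (FF J A B (t - r) (swap x y * g) -
        FF J A B (t - r) g)) = -∑ x, ∑ y, J x y / 2 * (stirExp J r (fun g => FF J A B (t - r)
          (swap x y * g)) - stirExp J r (FF J A B (t - r))) := by
      simp only [mul_neg, Finset.sum_neg_distrib, Finset.mul_sum]
      congr 1
      rw [Finset.sum_comm]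
      refine Finset.sum_congr rfl fun x _ => ?_
      rw [Finset.sum_comm]
      refine Finset.sum_congr rfl fun y _ => ?_
      unfold stirExp
      rw [← Finset.sum_sub_distrib, Finset.mul_sum]
      refine Finset.sum_congr rfl fun g _ => ?_
      ring
    rw [h4]
    ring
  have hc := is_const_of_deriv_eq_zero (fun r => (hd r).differentiableAt) (fun r => (hd r).deriv)
  have h1 : H 0 = (A + B * qq J t).det := by
    rw [hH]
    simp only [law_zero, ite_mul, one_mul, zero_mul]
    rw [Finset.sum_ite_eq', if_pos (Finset.mem_univ _), sub_zero]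
    rfl
  have h2 : H t = stirExp J t
      (fun g => (A + B * Matrix.of fun a b => if g a = b then 1 else 0).det) := by
    rw [hH]
    unfold stirExp FF ff
    simp only [sub_self, qq_zero, Matrix.one_apply]
  rw [← h1, ← h2]
  exact hc t 0

end ident

end Pool.Agent.Q289.DI
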