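import Pool.Agent.Q289.DI.Walk

/-!
# Energy bounds for the conditional escape probability
-/

set_option autoImplicit false

namespace Pool.Agent.Q289.DI

open Finset Equiv Matrix Filter
open scoped Topology
open Pool.Agent.Y998.ST hiding E

section energy

variable {V : Type} [Fintype V] [DecidableEq V]

/-- the energy form `½ ∑ P(a, b) (f a - f b)²` -/
noncomputable def en (P : V → V → ℝ) (f : V → ℝ) : ℝ := (∑ a, ∑ b, P a b * (f a - f b) ^ 2) / 2

theorem qq_symm {J : V → V → ℝ} (hs : ∀ x y, J x y = J y x) (h0 : ∀ x, J x x = 0) (t : ℝ) :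
    (qq J t)ᵀ = qq J t := by
  have h1 : ∀ s x y, HasDerivAt (fun u => (qq J u)ᵀ x y) (((qq J s)ᵀ * GG J) x y) s := by
    intro s x y
    have h2 := E_deriv (GG J) s y x
    have h3 : (fun u => (qq J u)ᵀ x y) = fun u => Pool.Agent.Y998.ST.E (GG J) u y x := by
      funext u; rw [← qq_eq_E hs h0]; rfl
    rw [h3]
    refine h2.congr_deriv ?_
    rw [← qq_eq_E hs h0, Matrix.mul_apply, Matrix.mul_apply]
    refine Finset.sum_congr rfl fun c _ => ?_
    rw [Matrix.transpose_apply, GG_symm hs y c, mul_comm]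
  have h2 : (fun u => (qq J u)ᵀ) 0 = 1 := by simp [qq_zero]
  have h3 := eq_E h1 h2 t
  rw [h3, ← qq_eq_E hs h0]

omit [DecidableEq V] in
theorem dot_symm {P : Matrix V V ℝ} (hP : Pᵀ = P) (u v : V → ℝ) : u ⬝ᵥ P *ᵥ v = (P *ᵥ u) ⬝ᵥ v := by
  rw [Matrix.dotProduct_mulVec, ← Matrix.mulVec_transpose, hP]

omit [DecidableEq V] in
/-- `f ⬝ f - f ⬝ P f` is the energy. -/
theorem en_eq {P : Matrix V V ℝ} (hP : Pᵀ = P) (hr : ∀ a, ∑ b, P a b = 1) (f : V → ℝ) :
    en P f = f ⬝ᵥ f - f ⬝ᵥ P *ᵥ f := by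
  have hP' : ∀ a b, P a b = P b a := fun a b => by
    conv_lhs => rw [← hP]
    rfl
  unfold en
  have h1 : ∑ a, ∑ b, P a b * (f a - f b) ^ 2 = ∑ a, ∑ b, P a b * f a ^ 2 +
      ∑ a, ∑ b, P a b * f b ^ 2 - 2 * ∑ a, ∑ b, P a b * (f a * f b) := by
    rw [Finset.mul_sum, ← Finset.sum_add_distrib, ← Finset.sum_sub_distrib]
    refine Finset.sum_congr rfl fun a _ => ?_
    rw [Finset.mul_sum, ← Finset.sum_add_distrib, ← Finset.sum_sub_distrib]
    refine Finset.sum_congr rfl fun b _ => ?_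
    ring
  have h2 : ∑ a, ∑ b, P a b * f a ^ 2 = f ⬝ᵥ f := by
    unfold dotProduct
    refine Finset.sum_congr rfl fun a _ => ?_
    rw [← Finset.sum_mul, hr, one_mul, sq]
  have h3 : ∑ a, ∑ b, P a b * f b ^ 2 = f ⬝ᵥ f := by
    rw [Finset.sum_comm, ← h2]
    refine Finset.sum_congr rfl fun a _ => Finset.sum_congr rfl fun b _ => ?_
    rw [hP']
  have h4 : ∑ a, ∑ b, P a b * (f a * f b) = f ⬝ᵥ P *ᵥ f := by
    unfold mulVec dotProduct
    refine Finset.sum_congr rfl fun a _ => ?_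
    rw [Finset.mul_sum]
    refine Finset.sum_congr rfl fun b _ => ?_
    ring
  rw [h1, h2, h3, h4]
  ring

omit [DecidableEq V] in
theorem en_nonneg {P : V → V → ℝ} (hP : ∀ a b, 0 ≤ P a b) (f : V → ℝ) : 0 ≤ en P f := by
  unfold en
  have : 0 ≤ ∑ a, ∑ b, P a b * (f a - f b) ^ 2 := Finset.sum_nonneg fun a _ =>
    Finset.sum_nonneg fun b _ => mul_nonneg (hP a b) (sq_nonneg _)
  linarith

/-- indicator matrix -/
def dg (A : Finset V) : Matrix V V ℝ := Matrix.diagonal fun a => if a ∈ A then 1 else 0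

theorem dg_mul (A : Finset V) : dg A * dg A = dg A := by
  unfold dg
  rw [Matrix.diagonal_mul_diagonal]
  congr 1
  funext a
  split_ifs <;> simp

theorem det_sym (A : Finset V) (P : Matrix V V ℝ) :
    (1 - stp A P : Matrix V V ℝ).det = (1 - dg A * P * dg A).det := by
  have h1 : stp A P = dg A * (dg A * P) := by
    rw [← Matrix.mul_assoc, dg_mul, stp_eq]
    rfl
  rw [h1, Matrix.det_one_sub_mul_comm]

theorem det_erase {A : Finset V} {x : V} (hx : x ∈ A) (P : Matrix V V ℝ) :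
    (1 - stp (A.erase x) P : Matrix V V ℝ).det = (1 - dg A * P * dg A).adjugate x x := by
  rw [Matrix.adjugate_apply]
  have h1 : (1 - dg A * P * dg A).updateRow x (Pi.single x 1) =
      1 - dg (A.erase x) * (P * dg A) := by
    ext a b
    by_cases ha : a = x
    · subst ha
      rw [updateRow_self, Matrix.sub_apply]
      unfold dg
      rw [Matrix.diagonal_mul, if_neg (Finset.notMem_erase _ _), zero_mul, sub_zero,
        Matrix.one_apply, Pi.single_apply]
      simp only [eq_comm]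
    · rw [updateRow_ne ha, Matrix.sub_apply, Matrix.sub_apply, Matrix.mul_assoc]
      unfold dg
      rw [Matrix.diagonal_mul, Matrix.diagonal_mul]
      congr 2
      by_cases h : a ∈ A
      · rw [if_pos h, if_pos (Finset.mem_erase.2 ⟨ha, h⟩)]
      · rw [if_neg h, if_neg (fun h' => h (Finset.mem_of_mem_erase h'))]
  have h2 : dg A * dg (A.erase x) = dg (A.erase x) := by
    unfold dg
    rw [Matrix.diagonal_mul_diagonal]
    congr 1
    funext a
    by_cases h : a ∈ A.erase x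
    · rw [if_pos h, if_pos (Finset.mem_of_mem_erase h), one_mul]
    · rw [if_neg h, mul_zero]
  have h3 : stp (A.erase x) P = dg (A.erase x) * P := by rw [stp_eq]; rfl
  rw [h1, Matrix.det_one_sub_mul_comm, Matrix.mul_assoc, h2, Matrix.det_one_sub_mul_comm, h3]

theorem quad_eq {P : Matrix V V ℝ} (A : Finset V) {f : V → ℝ} (hf : ∀ a, a ∉ A → f a = 0) :
    f ⬝ᵥ (1 - dg A * P * dg A) *ᵥ f = f ⬝ᵥ f - f ⬝ᵥ P *ᵥ f := by
  have h1 : dg A *ᵥ f = f := by
    funext a
    unfold dg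
    rw [Matrix.mulVec_diagonal]
    by_cases h : a ∈ A
    · rw [if_pos h, one_mul]
    · rw [if_neg h, zero_mul, hf a h]
  have h2 : (dg A)ᵀ = dg A := by unfold dg; rw [Matrix.diagonal_transpose]
  rw [Matrix.sub_mulVec, Matrix.one_mulVec, dotProduct_sub, ← Matrix.mulVec_mulVec,
    ← Matrix.mulVec_mulVec, h1, dot_symm h2, h1]

theorem quad_nonneg {P : Matrix V V ℝ} (hP : Pᵀ = P) (hn : ∀ a b, 0 ≤ P a b)
    (hr : ∀ a, ∑ b, P a b = 1) (A : Finset V) (h : V → ℝ) :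
    0 ≤ h ⬝ᵥ (1 - dg A * P * dg A) *ᵥ h := by
  have h2 : (dg A)ᵀ = dg A := by unfold dg; rw [Matrix.diagonal_transpose]
  rw [Matrix.sub_mulVec, Matrix.one_mulVec, dotProduct_sub, ← Matrix.mulVec_mulVec,
    ← Matrix.mulVec_mulVec, dot_symm h2]
  have h3 := en_nonneg hn (dg A *ᵥ h)
  rw [en_eq hP hr] at h3
  have h4 : (dg A *ᵥ h) ⬝ᵥ (dg A *ᵥ h) ≤ h ⬝ᵥ h := by
    unfold dotProduct
    refine Finset.sum_le_sum fun a _ => ?_
    unfold dg
    rw [Matrix.mulVec_diagonal]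
    split_ifs
    · rw [one_mul]
    · rw [zero_mul, zero_mul]; exact mul_self_nonneg _
  linarith

/-- The conditional escape probability is at most the energy of any test function. -/
theorem escape_le {J : V → V → ℝ} (hJ : ∀ x y, 0 ≤ J x y) (hs : ∀ x y, J x y = J y x)
    (h0 : ∀ x, J x x = 0) {t : ℝ} (ht : 0 ≤ t) {A : Finset V} {x : V} (hx : x ∈ A) {f : V → ℝ}
    (hf : ∀ a, a ∉ A → f a = 0) (hfx : f x = 1) :
    prob J t (Free A) ≤ en (qq J t) f * prob J t (Free (A.erase x)) := by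
  have hP := qq_symm hs h0 t
  have hn := qq_nonneg hJ ht
  have hr := qq_row J t
  have hp1 := prob_nonneg hJ ht (Free A)
  have hp2 : prob J t (Free A) ≤ prob J t (Free (A.erase x)) :=
    prob_mono hJ ht fun g hg => ((free_iff hx g).1 hg).1
  rcases hp1.eq_or_lt with hz | hpos
  · rw [← hz]
    exact mul_nonneg (en_nonneg hn f) (hz ▸ hp2 : (0 : ℝ) ≤ _)
  obtain ⟨Q, hQ⟩ : ∃ Q : Matrix V V ℝ, Q = 1 - dg A * qq J t * dg A := ⟨_, rfl⟩
  have hdet : prob J t (Free A) = Q.det := by rw [prob_free hs h0, det_sym, hQ]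
  have hadj : prob J t (Free (A.erase x)) = Q.adjugate x x := by
    rw [prob_free hs h0, det_erase hx, hQ]
  have hd : Q.det ≠ 0 := by rw [← hdet]; exact hpos.ne'
  have hu : IsUnit Q.det := isUnit_iff_ne_zero.2 hd
  have hG : Q⁻¹ x x = prob J t (Free (A.erase x)) / prob J t (Free A) := by
    rw [Matrix.inv_def, Matrix.smul_apply, Ring.inverse_eq_inv', ← hdet, ← hadj, smul_eq_mul]
    field_simp
  have hGpos : 0 < Q⁻¹ x x := by rw [hG]; exact div_pos (hpos.trans_le hp2) hpos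
  have hQs : Qᵀ = Q := by
    have h2 : (dg A)ᵀ = dg A := by unfold dg; rw [Matrix.diagonal_transpose]
    rw [hQ, Matrix.transpose_sub, Matrix.transpose_one, Matrix.transpose_mul,
      Matrix.transpose_mul, h2, hP, Matrix.mul_assoc]
  obtain ⟨g, hg⟩ : ∃ g : V → ℝ, g = Q⁻¹ *ᵥ Pi.single x 1 := ⟨_, rfl⟩
  have hQg : Q *ᵥ g = Pi.single x 1 := by
    rw [hg, Matrix.mulVec_mulVec, Matrix.mul_nonsing_inv _ hu, Matrix.one_mulVec]
  have hgx : g x = Q⁻¹ x x := by rw [hg]; simp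
  have key : 0 ≤ f ⬝ᵥ Q *ᵥ f - 1 / Q⁻¹ x x := by
    have h1 := quad_nonneg hP hn hr A (f - (1 / Q⁻¹ x x) • g)
    rw [← hQ] at h1
    have h2 : (f - (1 / Q⁻¹ x x) • g) ⬝ᵥ Q *ᵥ (f - (1 / Q⁻¹ x x) • g) =
        f ⬝ᵥ Q *ᵥ f - 2 * (1 / Q⁻¹ x x) * f x + (1 / Q⁻¹ x x) ^ 2 * g x := by
      rw [Matrix.mulVec_sub, Matrix.mulVec_smul, hQg, sub_dotProduct, dotProduct_sub,
        dotProduct_sub, smul_dotProduct, smul_dotProduct, dotProduct_smul, dotProduct_smul,
        dot_symm hQs g f, hQg, dotProduct_single, dotProduct_single, single_dotProduct]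
      simp only [smul_eq_mul, mul_one, one_mul]
      ring
    rw [h2, hfx, hgx] at h1
    have h3 : f ⬝ᵥ Q *ᵥ f - 2 * (1 / Q⁻¹ x x) * 1 + (1 / Q⁻¹ x x) ^ 2 * Q⁻¹ x x =
        f ⬝ᵥ Q *ᵥ f - 1 / Q⁻¹ x x := by
      field_simp
      ring
    rwa [h3] at h1
  rw [hQ, quad_eq A hf, ← en_eq hP hr, ← hQ, hG] at key
  have h4 : 1 / (prob J t (Free (A.erase x)) / prob J t (Free A)) =
      prob J t (Free A) / prob J t (Free (A.erase x)) := by rw [one_div_div]
  rw [h4] at key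
  have h5 : prob J t (Free A) / prob J t (Free (A.erase x)) ≤ en (qq J t) f := by linarith
  rwa [div_le_iff₀ (hpos.trans_le hp2)] at h5

/-- The infimum is attained. -/
theorem escape_attained {J : V → V → ℝ} (hJ : ∀ x y, 0 ≤ J x y) (hs : ∀ x y, J x y = J y x)
    (h0 : ∀ x, J x x = 0) {t : ℝ} (ht : 0 ≤ t) {A : Finset V} {x : V} (hx : x ∈ A)
    (hpos : 0 < prob J t (Free A)) : ∃ f : V → ℝ, (∀ a, a ∉ A → f a = 0) ∧ f x = 1 ∧
      prob J t (Free A) = en (qq J t) f * prob J t (Free (A.erase x)) := by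
  have hP := qq_symm hs h0 t
  have hr := qq_row J t
  have hp2 : prob J t (Free A) ≤ prob J t (Free (A.erase x)) :=
    prob_mono hJ ht fun g hg => ((free_iff hx g).1 hg).1
  obtain ⟨Q, hQ⟩ : ∃ Q : Matrix V V ℝ, Q = 1 - dg A * qq J t * dg A := ⟨_, rfl⟩
  have hdet : prob J t (Free A) = Q.det := by rw [prob_free hs h0, det_sym, hQ]
  have hadj : prob J t (Free (A.erase x)) = Q.adjugate x x := by
    rw [prob_free hs h0, det_erase hx, hQ]
  have hd : Q.det ≠ 0 := by rw [← hdet]; exact hpos.ne'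
  have hu : IsUnit Q.det := isUnit_iff_ne_zero.2 hd
  have hG : Q⁻¹ x x = prob J t (Free (A.erase x)) / prob J t (Free A) := by
    rw [Matrix.inv_def, Matrix.smul_apply, Ring.inverse_eq_inv', ← hdet, ← hadj, smul_eq_mul]
    field_simp
  have hGpos : 0 < Q⁻¹ x x := by rw [hG]; exact div_pos (hpos.trans_le hp2) hpos
  obtain ⟨g, hg⟩ : ∃ g : V → ℝ, g = Q⁻¹ *ᵥ Pi.single x 1 := ⟨_, rfl⟩
  have hQg : Q *ᵥ g = Pi.single x 1 := by
    rw [hg, Matrix.mulVec_mulVec, Matrix.mul_nonsing_inv _ hu, Matrix.one_mulVec]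
  have hgx : g x = Q⁻¹ x x := by rw [hg]; simp
  have hgA : ∀ a, a ∉ A → g a = 0 := by
    intro a ha
    have h1 := congrFun hQg a
    rw [Pi.single_eq_of_ne (fun h => ha (by rw [h]; exact hx)), hQ, Matrix.sub_mulVec,
      Matrix.one_mulVec, Pi.sub_apply, Matrix.mul_assoc, ← Matrix.mulVec_mulVec] at h1
    have h2 : (dg A *ᵥ ((qq J t * dg A) *ᵥ g)) a = 0 := by
      unfold dg
      rw [Matrix.mulVec_diagonal, if_neg ha, zero_mul]
    rw [h2, sub_zero] at h1
    exact h1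
  have hfA : ∀ a, a ∉ A → ((1 / Q⁻¹ x x) • g) a = 0 := fun a ha => by
    rw [Pi.smul_apply, hgA a ha, smul_zero]
  refine ⟨(1 / Q⁻¹ x x) • g, hfA, ?_, ?_⟩
  · rw [Pi.smul_apply, hgx, smul_eq_mul]
    field_simp
  · rw [en_eq hP hr, ← quad_eq A hfA, ← hQ, Matrix.mulVec_smul, hQg, smul_dotProduct,
      dotProduct_smul, dotProduct_single, hgx, hG, smul_eq_mul, smul_eq_mul]
    have := hpos.trans_le hp2
    field_simp

/-- the energy of `P_t` as a function of `t` -/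
theorem en_deriv {J : V → V → ℝ} (hs : ∀ x y, J x y = J y x) (h0 : ∀ x, J x x = 0) (f : V → ℝ)
    (t : ℝ) : HasDerivAt (fun s => en (qq J s) f) (-(f ⬝ᵥ (GG J * qq J t) *ᵥ f)) t := by
  have h1 : (fun s => en (qq J s) f) = fun s => f ⬝ᵥ f - ∑ a, ∑ b, f a * (qq J s a b * f b) := by
    funext s
    rw [en_eq (qq_symm hs h0 s) (qq_row J s)]
    congr 1
    unfold mulVec dotProduct
    refine Finset.sum_congr rfl fun a _ => ?_
    rw [Finset.mul_sum]
  rw [h1]
  have h2 : HasDerivAt (fun s => ∑ a, ∑ b, f a * (qq J s a b * f b))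
      (∑ a, ∑ b, f a * ((GG J * qq J t) a b * f b)) t := by
    refine HasDerivAt.fun_sum fun a _ => HasDerivAt.fun_sum fun b _ => ?_
    have h3 := E_deriv (GG J) t a b
    have h4 : (fun u => qq J u a b) = fun u => Pool.Agent.Y998.ST.E (GG J) u a b := by
      funext u; rw [qq_eq_E hs h0]
    rw [← qq_eq_E hs h0, ← h4] at h3
    exact (h3.mul_const _).const_mul _
  have h3 : f ⬝ᵥ (GG J * qq J t) *ᵥ f = ∑ a, ∑ b, f a * ((GG J * qq J t) a b * f b) := by
    unfold mulVec dotProduct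
    refine Finset.sum_congr rfl fun a _ => ?_
    rw [Finset.mul_sum]
  rw [h3]
  exact h2.const_sub _

theorem GG_comm {J : V → V → ℝ} (hs : ∀ x y, J x y = J y x) (h0 : ∀ x, J x x = 0) (t : ℝ) :
    GG J * qq J t = qq J t * GG J := by
  ext a b
  have h1 := qq_deriv hs h0 t a b
  have h2 := E_deriv (GG J) t a b
  have h4 : (fun u => qq J u a b) = fun u => Pool.Agent.Y998.ST.E (GG J) u a b := by
    funext u; rw [qq_eq_E hs h0]
  rw [← qq_eq_E hs h0, ← h4] at h2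
  exact h2.unique h1

theorem qq_psd {J : V → V → ℝ} (hs : ∀ x y, J x y = J y x) (h0 : ∀ x, J x x = 0) (t : ℝ)
    (u : V → ℝ) : 0 ≤ u ⬝ᵥ qq J t *ᵥ u := by
  have h1 : qq J t = qq J (t / 2) * qq J (t / 2) := by
    rw [← qq_add hs h0, add_halves]
  rw [h1, ← Matrix.mulVec_mulVec, dot_symm (qq_symm hs h0 _)]
  exact Finset.sum_nonneg fun a _ => mul_self_nonneg _

theorem slope_anti {J : V → V → ℝ} (hs : ∀ x y, J x y = J y x) (h0 : ∀ x, J x x = 0)
    (f : V → ℝ) : Antitone fun t => -(f ⬝ᵥ (GG J * qq J t) *ᵥ f) := by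
  have hGs : (GG J)ᵀ = GG J := by
    ext a b
    rw [Matrix.transpose_apply, GG_symm hs]
  have hd : ∀ t, HasDerivAt (fun t => -(f ⬝ᵥ (GG J * qq J t) *ᵥ f))
      (-((GG J *ᵥ f) ⬝ᵥ qq J t *ᵥ (GG J *ᵥ f))) t := by
    intro t
    have h1 : (fun t => -(f ⬝ᵥ (GG J * qq J t) *ᵥ f)) =
        fun t => -∑ a, ∑ b, (GG J *ᵥ f) a * (qq J t a b * f b) := by
      funext t
      rw [← Matrix.mulVec_mulVec, dot_symm hGs]
      congr 1
      unfold mulVec dotProduct
      refine Finset.sum_congr rfl fun a _ => ?_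
      rw [Finset.mul_sum]
    rw [h1]
    have h2 : HasDerivAt (fun s => ∑ a, ∑ b, (GG J *ᵥ f) a * (qq J s a b * f b))
        (∑ a, ∑ b, (GG J *ᵥ f) a * ((qq J t * GG J) a b * f b)) t := by
      refine HasDerivAt.fun_sum fun a _ => HasDerivAt.fun_sum fun b _ => ?_
      exact ((qq_deriv hs h0 t a b).mul_const _).const_mul _
    have h3 : (GG J *ᵥ f) ⬝ᵥ qq J t *ᵥ (GG J *ᵥ f) =
        ∑ a, ∑ b, (GG J *ᵥ f) a * ((qq J t * GG J) a b * f b) := by
      rw [Matrix.mulVec_mulVec]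
      show ∑ a, (GG J *ᵥ f) a * ((qq J t * GG J) *ᵥ f) a = _
      refine Finset.sum_congr rfl fun a _ => ?_
      rw [← Finset.mul_sum]
      rfl
    rw [h3]
    exact h2.fun_neg
  refine antitone_of_deriv_nonpos (fun t => (hd t).differentiableAt) fun t => ?_
  rw [(hd t).deriv, neg_nonpos]
  exact qq_psd hs h0 t _

/-- the generator form -/
theorem GG_en {J : V → V → ℝ} (hs : ∀ x y, J x y = J y x) (h0 : ∀ x, J x x = 0) (f : V → ℝ) :
    -(f ⬝ᵥ GG J *ᵥ f) = en J f := by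
  unfold en
  have h1 : ∀ a b, f a * (GG J a b * f b) =
      J a b * (f a * f b) - (if a = b then f a ^ 2 * ∑ c, J a c else 0) := by
    intro a b
    unfold GG
    by_cases h : a = b
    · subst h
      rw [if_pos rfl, if_pos rfl, h0]
      ring
    · rw [if_neg h, if_neg h]
      ring
  have h2 : f ⬝ᵥ GG J *ᵥ f = ∑ a, ∑ b, J a b * (f a * f b) - ∑ a, f a ^ 2 * ∑ c, J a c := by
    unfold mulVec dotProduct
    rw [← Finset.sum_sub_distrib]
    refine Finset.sum_congr rfl fun a _ => ?_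
    rw [Finset.mul_sum]
    simp only [h1]
    rw [Finset.sum_sub_distrib, Finset.sum_ite_eq, if_pos (Finset.mem_univ _)]
  have h3 : ∑ a, ∑ b, J a b * (f a - f b) ^ 2 = ∑ a, ∑ b, J a b * f a ^ 2 +
      ∑ a, ∑ b, J a b * f b ^ 2 - 2 * ∑ a, ∑ b, J a b * (f a * f b) := by
    rw [Finset.mul_sum, ← Finset.sum_add_distrib, ← Finset.sum_sub_distrib]
    refine Finset.sum_congr rfl fun a _ => ?_
    rw [Finset.mul_sum, ← Finset.sum_add_distrib, ← Finset.sum_sub_distrib]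
    refine Finset.sum_congr rfl fun b _ => ?_
    ring
  have h4 : ∑ a, ∑ b, J a b * f b ^ 2 = ∑ a, ∑ b, J a b * f a ^ 2 := by
    rw [Finset.sum_comm]
    refine Finset.sum_congr rfl fun a _ => Finset.sum_congr rfl fun b _ => ?_
    rw [hs]
  have h5 : ∑ a, ∑ b, J a b * f a ^ 2 = ∑ a, f a ^ 2 * ∑ c, J a c := by
    refine Finset.sum_congr rfl fun a _ => ?_
    rw [← Finset.sum_mul, mul_comm]
  rw [h2, h3, h4, h5]
  ring

/-- `½ ∑ P_t(a,b) (f a - f b)² ≤ t ½ ∑ J(a,b) (f a - f b)²` -/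
theorem en_le {J : V → V → ℝ} (hs : ∀ x y, J x y = J y x) (h0 : ∀ x, J x x = 0) (f : V → ℝ)
    {t : ℝ} (ht : 0 ≤ t) : en (qq J t) f ≤ t * en J f := by
  have h1 : ∀ s, 0 ≤ s → -(f ⬝ᵥ (GG J * qq J s) *ᵥ f) ≤ en J f := by
    intro s hs'
    have h2 := slope_anti hs h0 f hs'
    simp only [qq_zero, Matrix.mul_one] at h2
    rwa [GG_en hs h0] at h2
  have hmono : MonotoneOn (fun s => s * en J f - en (qq J s) f) (Set.Ici 0) := by
    have hd : ∀ s, HasDerivAt (fun s => s * en J f - en (qq J s) f)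
        (1 * en J f - -(f ⬝ᵥ (GG J * qq J s) *ᵥ f)) s := fun s =>
      ((hasDerivAt_id' s).mul_const _).sub (en_deriv hs h0 f s)
    refine monotoneOn_of_deriv_nonneg (convex_Ici 0)
      (fun s _ => (hd s).continuousAt.continuousWithinAt)
      (fun s _ => (hd s).differentiableAt.differentiableWithinAt) fun s hs' => ?_
    rw [interior_Ici] at hs'
    rw [(hd s).deriv]
    have := h1 s (le_of_lt hs')
    linarith
  have h2 := hmono (Set.mem_Ici.2 le_rfl) (Set.mem_Ici.2 ht) ht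
  have h3 : en (qq J 0) f = 0 := by
    rw [en_eq (qq_symm hs h0 0) (qq_row J 0), qq_zero, Matrix.one_mulVec, sub_self]
  simp only [zero_mul, h3, sub_zero] at h2
  linarith

/-- concavity in time: `t E_1(f) ≤ E_t(f)` for `0 ≤ t ≤ 1` -/
theorem en_ge {J : V → V → ℝ} (hs : ∀ x y, J x y = J y x) (h0 : ∀ x, J x x = 0) (f : V → ℝ)
    {t : ℝ} (ht : 0 ≤ t) (ht1 : t ≤ 1) : t * en (qq J 1) f ≤ en (qq J t) f := by
  have hc : ConcaveOn ℝ Set.univ fun s => en (qq J s) f := by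
    refine Antitone.concaveOn_univ_of_deriv (fun s => (en_deriv hs h0 f s).differentiableAt) ?_
    have : deriv (fun s => en (qq J s) f) = fun s => -(f ⬝ᵥ (GG J * qq J s) *ᵥ f) := by
      funext s
      exact (en_deriv hs h0 f s).deriv
    rw [this]
    exact slope_anti hs h0 f
  have h3 : en (qq J 0) f = 0 := by
    rw [en_eq (qq_symm hs h0 0) (qq_row J 0), qq_zero, Matrix.one_mulVec, sub_self]
  have h4 := hc.2 (Set.mem_univ (0 : ℝ)) (Set.mem_univ (1 : ℝ)) (sub_nonneg.2 ht1) ht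
    (by ring : 1 - t + t = 1)
  simp only [smul_eq_mul, mul_zero, zero_add, mul_one, h3] at h4
  exact h4

end energy

end Pool.Agent.Q289.DI
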