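import Pool.Agent.Q289.DI.Energy

/-!
# Positivity
-/

set_option autoImplicit false

namespace Pool.Agent.Q289.DI

open Finset Equiv Matrix Filter
open scoped Topology
open Pool.Agent.Y998.ST hiding E

section pos

variable {V : Type} [Fintype V] [DecidableEq V]

/-- If the kernel is positive there is no cycle in `A ≠ V` with positive probability. -/
theorem free_pos {J : V → V → ℝ} (hJ : ∀ x y, 0 ≤ J x y) (hs : ∀ x y, J x y = J y x)
    (h0 : ∀ x, J x x = 0) {t : ℝ} (ht : 0 ≤ t) (hpos : ∀ a b, 0 < qq J t a b) {A : Finset V}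
    (hA : A ≠ Finset.univ) : 0 < prob J t (Free A) := by
  refine lt_of_le_of_ne (prob_nonneg hJ ht _) (Ne.symm ?_)
  rw [prob_free hs h0]
  intro hdet
  obtain ⟨h, hne, hh⟩ := Matrix.exists_mulVec_eq_zero_iff.2 hdet
  obtain ⟨c, hc⟩ : ∃ c, c ∉ A := by
    by_contra hcon
    push Not at hcon
    exact hA (Finset.eq_univ_iff_forall.2 hcon)
  have heq : ∀ a, h a = ∑ b, stp A (qq J t) a b * h b := by
    intro a
    have h1 := congrFun hh a
    rw [Matrix.sub_mulVec, Matrix.one_mulVec, Pi.sub_apply, Pi.zero_apply, sub_eq_zero] at h1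
    exact h1
  have hout : ∀ a, a ∉ A → h a = 0 := by
    intro a ha
    rw [heq a]
    unfold stp
    simp only [if_neg ha, zero_mul, Finset.sum_const_zero]
  have : Nonempty V := ⟨c⟩
  obtain ⟨a, _, ha⟩ := Finset.exists_max_image Finset.univ (fun a => |h a|) Finset.univ_nonempty
  have hM : 0 < |h a| := by
    obtain ⟨b, hb⟩ := Function.ne_iff.1 hne
    exact (abs_pos.2 hb).trans_le (ha b (Finset.mem_univ b))
  have haA : a ∈ A := by
    by_contra hcon
    rw [hout a hcon, abs_zero] at hM
    exact lt_irrefl _ hM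
  have h1 : |h a| ≤ ∑ b, qq J t a b * |h b| := by
    conv_lhs => rw [heq a]
    refine (Finset.abs_sum_le_sum_abs _ _).trans (Finset.sum_le_sum fun b _ => ?_)
    unfold stp
    rw [if_pos haA, abs_mul, abs_of_pos (hpos a b)]
  have h2 : ∑ b, qq J t a b * |h b| < ∑ b, qq J t a b * |h a| := by
    refine Finset.sum_lt_sum (fun b _ => mul_le_mul_of_nonneg_left (ha b (Finset.mem_univ b))
      (hpos a b).le) ⟨c, Finset.mem_univ c, ?_⟩
    rw [hout c hc, abs_zero]
    exact mul_lt_mul_of_pos_left hM (hpos a c)
  rw [← Finset.sum_mul, qq_row, one_mul] at h2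
  linarith

theorem law_swap_pos {J : V → V → ℝ} (hJ : ∀ x y, 0 ≤ J x y) {s : ℝ} (hs : 0 < s) {z b : V}
    (hzb : 0 < J z b) : 0 < stirLaw J s (swap z b) := by
  rw [law_eq]
  refine mul_pos (Real.exp_pos _) ?_
  have hT : ∀ x y, 0 ≤ TT J x y := fun x y => by
    unfold TT
    exact Finset.sum_nonneg fun a _ => Finset.sum_nonneg fun b _ =>
      mul_nonneg (by linarith [hJ a b]) (by split_ifs <;> norm_num)
  have h1 := le_hasSum (E_hasSum (TT J) s (swap z b) 1) 1 fun n _ =>
    mul_nonneg (by positivity) (pow_nonneg' hT n _ _)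
  refine lt_of_lt_of_le ?_ h1
  rw [pow_one, pow_one, Nat.factorial_one, Nat.cast_one, div_one]
  refine mul_pos hs ?_
  unfold TT
  have h2 : J z b / 2 ≤ ∑ x, ∑ y, J x y / 2 * (if (1 : Perm V) = swap x y * swap z b then 1 else 0) := by
    refine le_trans ?_ (Finset.single_le_sum (f := fun x => ∑ y, J x y / 2 *
      (if (1 : Perm V) = swap x y * swap z b then (1 : ℝ) else 0)) (fun x _ =>
        Finset.sum_nonneg fun y _ => mul_nonneg (by linarith [hJ x y]) (by split_ifs <;> norm_num))
      (Finset.mem_univ z))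
    refine le_trans ?_ (Finset.single_le_sum (f := fun y => J z y / 2 *
      (if (1 : Perm V) = swap z y * swap z b then (1 : ℝ) else 0)) (fun y _ =>
        mul_nonneg (by linarith [hJ z y]) (by split_ifs <;> norm_num)) (Finset.mem_univ b))
    simp only [Equiv.swap_mul_self, if_true, mul_one, le_refl]
  linarith

theorem law_one_pos {J : V → V → ℝ} (hJ : ∀ x y, 0 ≤ J x y) {s : ℝ} (hs : 0 < s) :
    0 < stirLaw J s 1 := by
  rw [law_eq]
  refine mul_pos (Real.exp_pos _) ?_
  have hT : ∀ x y, 0 ≤ TT J x y := fun x y => by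
    unfold TT
    exact Finset.sum_nonneg fun a _ => Finset.sum_nonneg fun b _ =>
      mul_nonneg (by linarith [hJ a b]) (by split_ifs <;> norm_num)
  have h1 := le_hasSum (E_hasSum (TT J) s 1 1) 0 fun n _ =>
    mul_nonneg (by positivity) (pow_nonneg' hT n _ _)
  refine lt_of_lt_of_le ?_ h1
  simp

theorem law_le_qq {J : V → V → ℝ} (hJ : ∀ x y, 0 ≤ J x y) {s : ℝ} (hs : 0 ≤ s) (g : Perm V)
    (z : V) : stirLaw J s g ≤ qq J s z (g z) := by
  unfold qq hop stirExp
  refine le_trans ?_ (Finset.single_le_sum (f := fun g' => stirLaw J s g' *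
    (if g' z = g z then (1 : ℝ) else 0)) (fun g' _ => mul_nonneg (law_nonneg hJ hs g')
      (by split_ifs <;> norm_num)) (Finset.mem_univ g))
  simp

theorem qq_pos_step {J : V → V → ℝ} (hJ : ∀ x y, 0 ≤ J x y) (hs : ∀ x y, J x y = J y x)
    (h0 : ∀ x, J x x = 0) {a b c : V} (hab : ∀ s, 0 < s → 0 < qq J s a b) (hbc : 0 < J b c) :
    ∀ s, 0 < s → 0 < qq J s a c := by
  intro s hs'
  have h1 : qq J s = qq J (s / 2) * qq J (s / 2) := by
    rw [← qq_add hs h0, add_halves]
  rw [h1, Matrix.mul_apply]
  have h2 : 0 < qq J (s / 2) a b * qq J (s / 2) b c := by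
    refine mul_pos (hab _ (by linarith)) ?_
    have h3 := law_le_qq hJ (by linarith : 0 ≤ s / 2) (swap b c) b
    rw [swap_apply_left] at h3
    exact (law_swap_pos hJ (by linarith) hbc).trans_le h3
  exact h2.trans_le (Finset.single_le_sum (f := fun e => qq J (s / 2) a e * qq J (s / 2) e c)
    (fun e _ => mul_nonneg (qq_nonneg hJ (by linarith) _ _) (qq_nonneg hJ (by linarith) _ _))
    (Finset.mem_univ b))

end pos

section torus

variable {d L : ℕ} [NeZero L]

omit [NeZero L] in
theorem nn_up (x : Fin d → ZMod L) (i : Fin d) :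
    0 < nnRate d L x (Function.update x i (x i + 1)) := by
  unfold nnRate
  rw [if_pos ⟨i, Or.inl rfl⟩]
  norm_num

/-- The heat kernel of the torus is positive. -/
theorem torus_pos (hL : 3 ≤ L) (a b : Fin d → ZMod L) : ∀ s, 0 < s → 0 < qq (nnRate d L) s a b := by
  classical
  have hstep : ∀ c i, (∀ s, 0 < s → 0 < qq (nnRate d L) s a c) →
      ∀ s, 0 < s → 0 < qq (nnRate d L) s a (Function.update c i (c i + 1)) := fun c i hc =>
    qq_pos_step nn_nonneg nn_symm (nn_diag hL) hc (nn_up c i)
  have hmany : ∀ c i (n : ℕ), (∀ s, 0 < s → 0 < qq (nnRate d L) s a c) →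
      ∀ s, 0 < s → 0 < qq (nnRate d L) s a (Function.update c i (c i + n)) := by
    intro c i n hc
    induction n with
    | zero =>
      have : Function.update c i (c i + ((0 : ℕ) : ZMod L)) = c := by simp
      rw [this]; exact hc
    | succ n ih =>
      have h1 := hstep _ i ih
      have h2 : Function.update (Function.update c i (c i + (n : ZMod L))) i
          ((Function.update c i (c i + (n : ZMod L))) i + 1) =
          Function.update c i (c i + ((n + 1 : ℕ) : ZMod L)) := by
        rw [Function.update_self, Function.update_idem]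
        congr 1
        push_cast
        ring
      rwa [h2] at h1
  have hset : ∀ c i v, (∀ s, 0 < s → 0 < qq (nnRate d L) s a c) →
      ∀ s, 0 < s → 0 < qq (nnRate d L) s a (Function.update c i v) := by
    intro c i v hc
    have h1 := hmany c i (v - c i).val hc
    rwa [ZMod.natCast_zmod_val, add_sub_cancel] at h1
  have hall : ∀ T : Finset (Fin d), ∀ s, 0 < s →
      0 < qq (nnRate d L) s a (fun i => if i ∈ T then b i else a i) := by
    intro T
    induction T using Finset.induction_on with
    | empty =>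
      intro s hs
      have h1 := law_le_qq (J := nnRate d L) nn_nonneg hs.le 1 a
      rw [Perm.one_apply] at h1
      simp only [Finset.notMem_empty, if_false]
      exact (law_one_pos nn_nonneg hs).trans_le h1
    | insert i T hi ih =>
      have h1 := hset _ i (b i) ih
      have h2 : Function.update (fun j => if j ∈ T then b j else a j) i (b i) =
          fun j => if j ∈ insert i T then b j else a j := by
        funext j
        by_cases hj : j = i
        · subst hj; rw [Function.update_self, if_pos (Finset.mem_insert_self _ _)]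
        · rw [Function.update_of_ne hj]
          by_cases hjT : j ∈ T
          · rw [if_pos hjT, if_pos (Finset.mem_insert_of_mem hjT)]
          · rw [if_neg hjT, if_neg]
            intro h
            rcases Finset.mem_insert.1 h with h | h
            · exact hj h
            · exact hjT h
      rwa [h2] at h1
  have h1 := hall Finset.univ
  simpa using h1

theorem torus_free_pos (hL : 3 ≤ L) {t : ℝ} (ht : 0 < t) {A : Finset (Fin d → ZMod L)}
    (hA : A ≠ Finset.univ) : 0 < prob (nnRate d L) t (Free A) :=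
  free_pos nn_nonneg nn_symm (nn_diag hL) ht.le (fun a b => torus_pos hL a b t ht) hA

end torus

end Pool.Agent.Q289.DI
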