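import Pool.Agent.Q289.DI.Pos

/-!
# The two-dimensional torus: a test function with small energy
-/

set_option autoImplicit false

namespace Pool.Agent.Q289.DI

open Finset Equiv Matrix Filter
open scoped Topology
open Pool.Agent.Y998.ST hiding E

section nu

variable {L : ℕ} [NeZero L]

/-- distance to `0` on the cycle -/
def nu (z : ZMod L) : ℕ := z.valMinAbs.natAbs

omit [NeZero L] in
theorem nu_dvd (z : ZMod L) : (L : ℤ) ∣ z.valMinAbs + 1 - (z + 1).valMinAbs := by
  rw [← ZMod.intCast_zmod_eq_zero_iff_dvd]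
  push_cast
  exact sub_self _

theorem nu_one_le : nu (1 : ZMod L) ≤ 1 := by
  unfold nu
  have h1 := ZMod.valMinAbs_natAbs_eq_min (n := L) (1 : ZMod L)
  rw [h1]
  refine (min_le_left _ _).trans ?_
  have h2 : ((1 : ℕ) : ZMod L).val ≤ 1 := by
    rw [ZMod.val_natCast]
    exact Nat.mod_le _ _
  simpa using h2

omit [NeZero L] in
theorem nu_neg (z : ZMod L) : nu (-z) = nu z := by
  unfold nu
  exact ZMod.natAbs_valMinAbs_neg z

omit [NeZero L] in
theorem nu_add_le (a b : ZMod L) : nu (a + b) ≤ nu a + nu b := by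
  unfold nu
  exact (ZMod.natAbs_valMinAbs_add_le a b).trans (Int.natAbs_add_le _ _)

theorem nu_up (z : ZMod L) : nu (z + 1) ≤ nu z + 1 :=
  (nu_add_le z 1).trans (by have := nu_one_le (L := L); omega)

theorem nu_down (z : ZMod L) : nu z ≤ nu (z + 1) + 1 := by
  have h1 := nu_add_le (z + 1) (-1)
  rw [nu_neg, add_neg_cancel_right] at h1
  have := nu_one_le (L := L)
  omega

theorem nu_jump_up {z : ZMod L} {j : ℕ} (hj : 2 * (j + 1) < L) (h1 : nu z = j)
    (h2 : nu (z + 1) = j + 1) : z = (j : ZMod L) := by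
  unfold nu at h1 h2
  have h3 := Int.eq_zero_of_abs_lt_dvd (nu_dvd z) (by rw [abs_lt]; constructor <;> omega)
  have h4 : z.valMinAbs = j := by omega
  rw [← ZMod.coe_valMinAbs z, h4]
  push_cast
  rfl

theorem nu_jump_down {z : ZMod L} {j : ℕ} (hj : 2 * (j + 1) < L) (h1 : nu z = j + 1)
    (h2 : nu (z + 1) = j) : z = -((j : ZMod L) + 1) := by
  unfold nu at h1 h2
  have h3 := Int.eq_zero_of_abs_lt_dvd (nu_dvd z) (by rw [abs_lt]; constructor <;> omega)
  have h4 : z.valMinAbs = -(j + 1) := by omega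
  rw [← ZMod.coe_valMinAbs z, h4]
  push_cast
  rfl

theorem nu_card (j : ℕ) : ((Finset.univ.filter fun z : ZMod L => nu z ≤ j).card : ℝ) ≤ 2 * j + 1 := by
  have h1 : (Finset.univ.filter fun z : ZMod L => nu z ≤ j).card ≤
      (Finset.Icc (-(j : ℤ)) j).card := by
    refine Finset.card_le_card_of_injOn (fun z => z.valMinAbs) (fun z hz => ?_)
      (fun a _ b _ h => ZMod.injective_valMinAbs h)
    have h2 : nu z ≤ j := by simpa using hz
    unfold nu at h2
    rw [Finset.mem_coe, Finset.mem_Icc]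
    show -(j : ℤ) ≤ z.valMinAbs ∧ z.valMinAbs ≤ j
    constructor <;> omega
  rw [Int.card_Icc] at h1
  have h2 : ((j : ℤ) + 1 - -(j : ℤ)).toNat = 2 * j + 1 := by omega
  rw [h2] at h1
  exact_mod_cast h1

end nu

section profile

/-- normalising sum -/
noncomputable def hS (r : ℕ) : ℝ := ∑ j ∈ Finset.range r, 1 / (2 * (j : ℝ) + 1)

/-- the radial profile -/
noncomputable def hF (r k : ℕ) : ℝ := (∑ j ∈ Finset.Ico k r, 1 / (2 * (j : ℝ) + 1)) / hS r

theorem hS_pos {r : ℕ} (hr : 0 < r) : 0 < hS r := by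
  unfold hS
  exact Finset.sum_pos (fun j _ => by positivity) ⟨0, Finset.mem_range.2 hr⟩

theorem hF_zero {r : ℕ} (hr : 0 < r) : hF r 0 = 1 := by
  unfold hF
  have : Finset.Ico 0 r = Finset.range r := by rw [Finset.range_eq_Ico]
  rw [this]
  exact div_self (hS_pos hr).ne'

theorem hF_out {r k : ℕ} (h : r ≤ k) : hF r k = 0 := by
  unfold hF
  rw [Finset.Ico_eq_empty (by omega), Finset.sum_empty, zero_div]

theorem hF_step {r k : ℕ} (h : k < r) : hF r k - hF r (k + 1) = 1 / (2 * (k : ℝ) + 1) / hS r := by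
  unfold hF
  rw [Finset.sum_eq_sum_Ico_succ_bot h]
  ring

theorem hS_log (r : ℕ) : Real.log (r + 1) / 2 ≤ hS r := by
  have h1 := log_add_one_le_harmonic r
  unfold harmonic at h1
  push_cast at h1
  have h2 : (∑ j ∈ Finset.range r, ((j : ℝ) + 1)⁻¹) / 2 ≤ hS r := by
    unfold hS
    rw [Finset.sum_div]
    refine Finset.sum_le_sum fun j _ => ?_
    rw [inv_eq_one_div, div_div, div_le_div_iff₀ (by positivity) (by positivity)]
    linarith
  linarith

variable {L : ℕ} [NeZero L]

/-- the pointwise bound of the squared gradient -/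
theorem grad_le {r : ℕ} (hr : 2 * r < L) (z w : ZMod L) :
    (hF r (max (nu (z + 1)) (nu w)) - hF r (max (nu z) (nu w))) ^ 2 ≤
      ∑ j ∈ Finset.range r, (1 / (2 * (j : ℝ) + 1) / hS r) ^ 2 *
        ((if nu w ≤ j then 1 else 0) * ((if z = (j : ZMod L) then 1 else 0) +
          (if z = -((j : ZMod L) + 1) then 1 else 0))) := by
  have hnn : ∀ j ∈ Finset.range r, 0 ≤ (1 / (2 * (j : ℝ) + 1) / hS r) ^ 2 *
        ((if nu w ≤ j then (1 : ℝ) else 0) * ((if z = (j : ZMod L) then 1 else 0) +
          (if z = -((j : ZMod L) + 1) then 1 else 0))) := by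
    intro j _
    refine mul_nonneg (sq_nonneg _) (mul_nonneg ?_ (add_nonneg ?_ ?_)) <;>
      split_ifs <;> norm_num
  have hu := nu_up z
  have hd := nu_down z
  by_cases heq : max (nu (z + 1)) (nu w) = max (nu z) (nu w)
  · rw [heq, sub_self]
    simpa using Finset.sum_nonneg hnn
  · rcases lt_trichotomy (nu z) (nu (z + 1)) with h | h | h
    · -- going up
      have h1 : nu (z + 1) = nu z + 1 := by omega
      have h2 : nu w ≤ nu z := by
        by_contra hcon
        apply heq
        rw [max_eq_right (by omega), max_eq_right (by omega)]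
      rw [max_eq_left (by omega : nu w ≤ nu (z + 1)), max_eq_left h2, h1]
      by_cases hjr : nu z < r
      · have h3 := hF_step hjr
        have h4 : (hF r (nu z + 1) - hF r (nu z)) ^ 2 = (1 / (2 * (nu z : ℝ) + 1) / hS r) ^ 2 := by
          rw [← h3]; ring
        rw [h4]
        refine le_trans ?_ (Finset.single_le_sum hnn (Finset.mem_range.2 hjr))
        have h5 : z = ((nu z : ℕ) : ZMod L) := nu_jump_up (by omega) rfl h1
        rw [if_pos h2, if_pos h5, one_mul]
        refine le_mul_of_one_le_right (sq_nonneg _) ?_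
        split_ifs <;> norm_num
      · rw [hF_out (by omega : r ≤ nu z + 1), hF_out (by omega : r ≤ nu z), sub_self]
        simpa using Finset.sum_nonneg hnn
    · exact absurd (by rw [h]) heq
    · have h1 : nu z = nu (z + 1) + 1 := by omega
      have h2 : nu w ≤ nu (z + 1) := by
        by_contra hcon
        apply heq
        rw [max_eq_right (by omega), max_eq_right (by omega)]
      rw [max_eq_left h2, max_eq_left (by omega : nu w ≤ nu z), h1]
      by_cases hjr : nu (z + 1) < r
      · have h3 := hF_step hjr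
        rw [h3]
        refine le_trans ?_ (Finset.single_le_sum hnn (Finset.mem_range.2 hjr))
        have h5 : z = -(((nu (z + 1) : ℕ) : ZMod L) + 1) := nu_jump_down (by omega) h1 rfl
        rw [if_pos h2, if_pos h5, one_mul]
        refine le_mul_of_one_le_right (sq_nonneg _) ?_
        split_ifs <;> norm_num
      · rw [hF_out (by omega : r ≤ nu (z + 1) + 1), hF_out (by omega : r ≤ nu (z + 1)), sub_self]
        simpa using Finset.sum_nonneg hnn

/-- the sum over a plane of the squared gradient -/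
theorem grad_sum_le {r : ℕ} (hr0 : 0 < r) (hr : 2 * r < L) :
    ∑ z : ZMod L, ∑ w : ZMod L,
      (hF r (max (nu (z + 1)) (nu w)) - hF r (max (nu z) (nu w))) ^ 2 ≤ 2 / hS r := by
  have h1 : ∑ z : ZMod L, ∑ w : ZMod L,
      (hF r (max (nu (z + 1)) (nu w)) - hF r (max (nu z) (nu w))) ^ 2 ≤
      ∑ j ∈ Finset.range r, (1 / (2 * (j : ℝ) + 1) / hS r) ^ 2 * ((2 * j + 1) * 2) := by
    calc ∑ z : ZMod L, ∑ w : ZMod L,
          (hF r (max (nu (z + 1)) (nu w)) - hF r (max (nu z) (nu w))) ^ 2
        ≤ ∑ z : ZMod L, ∑ w : ZMod L, ∑ j ∈ Finset.range r, (1 / (2 * (j : ℝ) + 1) / hS r) ^ 2 *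
            ((if nu w ≤ j then 1 else 0) * ((if z = (j : ZMod L) then 1 else 0) +
              (if z = -((j : ZMod L) + 1) then 1 else 0))) :=
          Finset.sum_le_sum fun z _ => Finset.sum_le_sum fun w _ => grad_le hr z w
      _ = ∑ j ∈ Finset.range r, (1 / (2 * (j : ℝ) + 1) / hS r) ^ 2 *
            ((∑ w : ZMod L, if nu w ≤ j then (1 : ℝ) else 0) * ∑ z : ZMod L,
              ((if z = (j : ZMod L) then (1 : ℝ) else 0) +
              (if z = -((j : ZMod L) + 1) then 1 else 0))) := by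
          have h5 : ∀ z : ZMod L, ∑ w : ZMod L, ∑ j ∈ Finset.range r,
              (1 / (2 * (j : ℝ) + 1) / hS r) ^ 2 *
              ((if nu w ≤ j then (1 : ℝ) else 0) * ((if z = (j : ZMod L) then 1 else 0) +
              (if z = -((j : ZMod L) + 1) then 1 else 0))) =
              ∑ j ∈ Finset.range r, ∑ w : ZMod L, (1 / (2 * (j : ℝ) + 1) / hS r) ^ 2 *
              ((if nu w ≤ j then (1 : ℝ) else 0) * ((if z = (j : ZMod L) then 1 else 0) +
              (if z = -((j : ZMod L) + 1) then 1 else 0))) := fun z => Finset.sum_comm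
          rw [Finset.sum_congr rfl fun z _ => h5 z, Finset.sum_comm]
          refine Finset.sum_congr rfl fun j _ => ?_
          rw [Finset.sum_mul_sum, Finset.sum_comm, Finset.mul_sum]
          refine Finset.sum_congr rfl fun w _ => ?_
          rw [Finset.mul_sum]
      _ ≤ ∑ j ∈ Finset.range r, (1 / (2 * (j : ℝ) + 1) / hS r) ^ 2 * ((2 * j + 1) * 2) := by
          refine Finset.sum_le_sum fun j _ => mul_le_mul_of_nonneg_left ?_ (sq_nonneg _)
          have h2 : ∑ w : ZMod L, (if nu w ≤ j then (1 : ℝ) else 0) ≤ 2 * j + 1 := by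
            rw [← Finset.sum_filter, Finset.sum_const, nsmul_eq_mul, mul_one]
            exact nu_card j
          have h3 : ∑ z : ZMod L, ((if z = (j : ZMod L) then (1 : ℝ) else 0) +
              (if z = -((j : ZMod L) + 1) then 1 else 0)) = 2 := by
            rw [Finset.sum_add_distrib, Finset.sum_ite_eq', Finset.sum_ite_eq',
              if_pos (Finset.mem_univ _), if_pos (Finset.mem_univ _)]
            norm_num
          rw [h3]
          exact mul_le_mul_of_nonneg_right h2 (by norm_num)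
  refine h1.trans (le_of_eq ?_)
  have hS0 := hS_pos hr0
  have h2 : ∀ j ∈ Finset.range r, (1 / (2 * (j : ℝ) + 1) / hS r) ^ 2 * ((2 * j + 1) * 2) =
      2 / hS r ^ 2 * (1 / (2 * (j : ℝ) + 1)) := by
    intro j _
    field_simp
  rw [Finset.sum_congr rfl h2, ← Finset.mul_sum]
  show 2 / hS r ^ 2 * hS r = 2 / hS r
  field_simp

end profile

section plane

variable {L : ℕ} [NeZero L]

/-- The energy on the torus as a sum over the edges. -/
theorem en_torus {d : ℕ} (hL : 3 ≤ L) (f : (Fin d → ZMod L) → ℝ) :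
    en (nnRate d L) f = ∑ i, ∑ b, (f (Function.update b i (b i + 1)) - f b) ^ 2 := by
  unfold en
  have h1 : ∑ a, ∑ b, nnRate d L a b * (f a - f b) ^ 2 =
      ∑ b, ∑ i, ((f (Function.update b i (b i + 1)) - f b) ^ 2 +
        (f (Function.update b i (b i - 1)) - f b) ^ 2) := by
    rw [Finset.sum_comm]
    refine Finset.sum_congr rfl fun b _ => ?_
    rw [← nn_sum hL (fun a => (f a - f b) ^ 2) b]
    refine Finset.sum_congr rfl fun a _ => ?_
    ring
  have h2 : ∀ i, ∑ b, (f (Function.update b i (b i - 1)) - f b) ^ 2 =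
      ∑ b, (f (Function.update b i (b i + 1)) - f b) ^ 2 := by
    intro i
    refine Finset.sum_bij' (fun b _ => Function.update b i (b i - 1))
      (fun b _ => Function.update b i (b i + 1)) (fun _ _ => Finset.mem_univ _)
      (fun _ _ => Finset.mem_univ _) (fun b _ => ?_) (fun b _ => ?_) (fun b _ => ?_)
    · simp
    · simp
    · have h3 : Function.update (Function.update b i (b i - 1)) i
          ((Function.update b i (b i - 1)) i + 1) = b := by simp
      simp only [h3]
      ring
  rw [h1, Finset.sum_comm]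
  simp only [Finset.sum_add_distrib, h2]
  ring

theorem test_two {r : ℕ} (hr0 : 0 < r) (hL : 3 ≤ L) (hr : 2 * r < L) (x : Fin 2 → ZMod L) :
    en (nnRate 2 L) (fun v => hF r (max (nu (v 0 - x 0)) (nu (v 1 - x 1)))) ≤ 4 / hS r := by
  rw [en_torus hL, Fin.sum_univ_two]
  have hsum : ∀ Φ : ZMod L → ZMod L → ℝ, ∑ b : Fin 2 → ZMod L, Φ (b 0 - x 0) (b 1 - x 1) =
      ∑ z, ∑ w, Φ z w := by
    intro Φ
    rw [← Fintype.sum_prod_type']
    refine Fintype.sum_equiv ((Equiv.subRight x).trans (finTwoArrowEquiv (ZMod L))) _ _ fun b => ?_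
    rfl
  have h0 : ∑ b : Fin 2 → ZMod L,
      (hF r (max (nu ((Function.update b 0 (b 0 + 1)) 0 - x 0))
        (nu ((Function.update b 0 (b 0 + 1)) 1 - x 1))) -
        hF r (max (nu (b 0 - x 0)) (nu (b 1 - x 1)))) ^ 2 ≤ 2 / hS r := by
    have h1 := hsum fun z w => (hF r (max (nu (z + 1)) (nu w)) - hF r (max (nu z) (nu w))) ^ 2
    refine le_trans (le_of_eq ?_) (h1.le.trans (grad_sum_le hr0 hr))
    refine Finset.sum_congr rfl fun b _ => ?_
    rw [Function.update_self, Function.update_of_ne (by decide : (1 : Fin 2) ≠ 0)]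
    have : b 0 + 1 - x 0 = b 0 - x 0 + 1 := by ring
    rw [this]
  have h1 : ∑ b : Fin 2 → ZMod L,
      (hF r (max (nu ((Function.update b 1 (b 1 + 1)) 0 - x 0))
        (nu ((Function.update b 1 (b 1 + 1)) 1 - x 1))) -
        hF r (max (nu (b 0 - x 0)) (nu (b 1 - x 1)))) ^ 2 ≤ 2 / hS r := by
    have h1 := hsum fun z w => (hF r (max (nu (w + 1)) (nu z)) - hF r (max (nu w) (nu z))) ^ 2
    rw [Finset.sum_comm] at h1
    refine le_trans (le_of_eq ?_) (h1.le.trans (grad_sum_le hr0 hr))
    refine Finset.sum_congr rfl fun b _ => ?_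
    rw [Function.update_self, Function.update_of_ne (by decide : (0 : Fin 2) ≠ 1)]
    have : b 1 + 1 - x 1 = b 1 - x 1 + 1 := by ring
    rw [this, max_comm (nu (b 0 - x 0)) (nu (b 1 - x 1 + 1)),
      max_comm (nu (b 0 - x 0)) (nu (b 1 - x 1))]
  have h2 : 4 / hS r = 2 / hS r + 2 / hS r := by ring
  rw [h2]
  exact add_le_add h0 h1

/-- In dimension two the conditional escape probability tends to zero. -/
theorem escape_two (hL : 3 ≤ L) {r : ℕ} (hr0 : 0 < r) (hr : 2 * r < L) {t : ℝ} (ht : 0 ≤ t)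
    (x : Fin 2 → ZMod L) (A : Finset (Fin 2 → ZMod L))
    (hA : ∀ v : Fin 2 → ZMod L, (∀ i, nu (v i - x i) < r) → v ∈ A) :
    prob (nnRate 2 L) t (Free A) ≤
      8 * t / Real.log (r + 1) * prob (nnRate 2 L) t (Free (A.erase x)) := by
  have hx : x ∈ A := hA x fun i => by
    rw [sub_self]
    unfold nu
    simpa using hr0
  have hf : ∀ a, a ∉ A → hF r (max (nu (a 0 - x 0)) (nu (a 1 - x 1))) = 0 := by
    intro a ha
    refine hF_out ?_
    by_contra hcon
    apply ha
    refine hA a fun i => ?_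
    have h1 : max (nu (a 0 - x 0)) (nu (a 1 - x 1)) < r := by omega
    fin_cases i
    · exact (le_max_left _ _).trans_lt h1
    · exact (le_max_right _ _).trans_lt h1
  have hfx : hF r (max (nu (x 0 - x 0)) (nu (x 1 - x 1))) = 1 := by
    have : nu (0 : ZMod L) = 0 := by unfold nu; simp
    rw [sub_self, sub_self, this, max_self, hF_zero hr0]
  have h1 := escape_le (J := nnRate 2 L) nn_nonneg nn_symm (nn_diag hL) ht hx
    (f := fun v => hF r (max (nu (v 0 - x 0)) (nu (v 1 - x 1)))) hf hfx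
  refine h1.trans (mul_le_mul_of_nonneg_right ?_ (prob_nonneg nn_nonneg ht _))
  have h2 := en_le (J := nnRate 2 L) nn_symm (nn_diag hL)
    (fun v => hF r (max (nu (v 0 - x 0)) (nu (v 1 - x 1)))) ht
  refine h2.trans ((mul_le_mul_of_nonneg_left (test_two hr0 hL hr x) ht).trans ?_)
  have hlog : 0 < Real.log (r + 1) := Real.log_pos (by
    have : (1 : ℝ) ≤ r := by exact_mod_cast hr0
    linarith)
  have h3 := hS_log r
  have h4 : 0 < hS r := hS_pos hr0
  rw [mul_div_assoc', div_le_div_iff₀ h4 hlog]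
  nlinarith

end plane

end Pool.Agent.Q289.DI
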