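import Pool.Agent.Q289.DI.Pos

/-!
# Dimension at least three: the conditional escape probability is bounded below
-/

set_option autoImplicit false

namespace Pool.Agent.Q289.DI

open Finset Equiv Matrix Filter
open scoped Topology
open Pool.Agent.Y998.ST hiding E

section green

variable {V : Type} [Fintype V] [DecidableEq V]

theorem stp_pow_le {P : Matrix V V ℝ} (hP : ∀ a b, 0 ≤ P a b) (A : Finset V) (k : ℕ) (a b : V) :
    (stp A P ^ k) a b ≤ (P ^ k) a b := by
  induction k generalizing a b with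
  | zero => rw [pow_zero, pow_zero]
  | succ k ih =>
    rw [pow_succ, pow_succ, Matrix.mul_apply, Matrix.mul_apply]
    refine Finset.sum_le_sum fun c _ => mul_le_mul (ih a c) ?_ (stp_nonneg hP A c b)
      (pow_nonneg' hP k a c)
    unfold stp
    split_ifs
    · exact le_rfl
    · exact hP c b

/-- A bound of the Green function of the walk killed off `A`. -/
theorem green_le {P : Matrix V V ℝ} (hP : ∀ a b, 0 ≤ P a b) (A : Finset V) {x : V} (hx : x ∈ A)
    (hd : (1 - stp A P : Matrix V V ℝ).det ≠ 0) (K : ℕ) {S : ℝ}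
    (hS : ∀ a, ∑ k ∈ Finset.range K, (P ^ k) a x ≤ S)
    (hK : ∀ a, ∑ b ∈ A, (P ^ K) a b ≤ 2 / 3) : (1 - stp A P)⁻¹ x x ≤ 3 * S := by
  obtain ⟨R, hR⟩ : ∃ R : Matrix V V ℝ, R = 1 - stp A P := ⟨_, rfl⟩
  rw [← hR] at hd ⊢
  have hu : IsUnit R.det := isUnit_iff_ne_zero.2 hd
  have h1 : R⁻¹ = ∑ k ∈ Finset.range K, stp A P ^ k + stp A P ^ K * R⁻¹ := by
    have h2 : (∑ k ∈ Finset.range K, stp A P ^ k) * R = 1 - stp A P ^ K := by
      rw [hR]; exact geom_sum_mul_neg _ _
    have h3 : ∑ k ∈ Finset.range K, stp A P ^ k = (1 - stp A P ^ K) * R⁻¹ := by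
      rw [← h2, Matrix.mul_nonsing_inv_cancel_right _ _ hu]
    rw [h3, Matrix.sub_mul, Matrix.one_mul, sub_add_cancel]
  have hout : ∀ a, a ∉ A → R⁻¹ a x = 0 := by
    intro a ha
    have h2 : (R * R⁻¹) a x = (1 : Matrix V V ℝ) a x := by rw [Matrix.mul_nonsing_inv _ hu]
    rw [Matrix.one_apply_ne (fun h => ha (by rw [h]; exact hx)), hR, Matrix.sub_mul,
      Matrix.one_mul, Matrix.sub_apply, ← hR] at h2
    have h3 : (stp A P * R⁻¹) a x = 0 := by
      rw [Matrix.mul_apply]
      refine Finset.sum_eq_zero fun c _ => ?_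
      unfold stp
      rw [if_neg ha, zero_mul]
    rw [h3, sub_zero] at h2
    exact h2
  have : Nonempty V := ⟨x⟩
  obtain ⟨m, _, hm⟩ := Finset.exists_max_image Finset.univ (fun a => |R⁻¹ a x|)
    Finset.univ_nonempty
  have h2 : |R⁻¹ m x| ≤ S + 2 / 3 * |R⁻¹ m x| := by
    conv_lhs => rw [h1]
    rw [Matrix.add_apply, Matrix.sum_apply]
    refine (abs_add_le _ _).trans (add_le_add ?_ ?_)
    · rw [abs_of_nonneg (Finset.sum_nonneg fun k _ => pow_nonneg' (stp_nonneg hP A) k m x)]
      exact (Finset.sum_le_sum fun k _ => stp_pow_le hP A k m x).trans (hS m)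
    · rw [Matrix.mul_apply]
      have h3 : ∑ c, (stp A P ^ K) m c * R⁻¹ c x = ∑ c ∈ A, (stp A P ^ K) m c * R⁻¹ c x := by
        symm
        refine Finset.sum_subset (Finset.subset_univ A) fun c _ hc => ?_
        rw [hout c hc, mul_zero]
      rw [h3]
      refine (Finset.abs_sum_le_sum_abs _ _).trans ?_
      calc ∑ c ∈ A, |(stp A P ^ K) m c * R⁻¹ c x|
          ≤ ∑ c ∈ A, (P ^ K) m c * |R⁻¹ m x| := by
            refine Finset.sum_le_sum fun c _ => ?_
            rw [abs_mul, abs_of_nonneg (pow_nonneg' (stp_nonneg hP A) K m c)]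
            exact mul_le_mul (stp_pow_le hP A K m c) (hm c (Finset.mem_univ c)) (abs_nonneg _)
              (pow_nonneg' hP K m c)
        _ = (∑ c ∈ A, (P ^ K) m c) * |R⁻¹ m x| := by rw [Finset.sum_mul]
        _ ≤ 2 / 3 * |R⁻¹ m x| := mul_le_mul_of_nonneg_right (hK m) (abs_nonneg _)
  have h3 := hm x (Finset.mem_univ x)
  have h4 := le_abs_self (R⁻¹ x x)
  linarith

/-- The ratio of the probabilities is the Green function. -/
theorem green_eq {J : V → V → ℝ} (hs : ∀ x y, J x y = J y x) (h0 : ∀ x, J x x = 0) (t : ℝ)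
    (A : Finset V) {x : V} (hx : x ∈ A) (hp : prob J t (Free A) ≠ 0) :
    prob J t (Free (A.erase x)) = (1 - stp A (qq J t))⁻¹ x x * prob J t (Free A) := by
  have h1 : (1 - stp A (qq J t) : Matrix V V ℝ).updateRow x (Pi.single x 1) =
      1 - stp (A.erase x) (qq J t) := by
    ext a b
    by_cases ha : a = x
    · subst ha
      rw [updateRow_self, Matrix.sub_apply]
      unfold stp
      rw [if_neg (Finset.notMem_erase _ _), sub_zero, Matrix.one_apply, Pi.single_apply]
      simp only [eq_comm]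
    · rw [updateRow_ne ha, Matrix.sub_apply, Matrix.sub_apply]
      unfold stp
      by_cases h : a ∈ A
      · rw [if_pos h, if_pos (Finset.mem_erase.2 ⟨ha, h⟩)]
      · rw [if_neg h, if_neg (fun h' => h (Finset.mem_of_mem_erase h'))]
  have h2 : prob J t (Free (A.erase x)) = (1 - stp A (qq J t) : Matrix V V ℝ).adjugate x x := by
    rw [prob_free hs h0, Matrix.adjugate_apply, h1]
  rw [prob_free hs h0 t A] at hp ⊢
  rw [h2, Matrix.inv_def, Matrix.smul_apply, Ring.inverse_eq_inv', smul_eq_mul]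
  field_simp

end green

section torus

theorem sqrt_pow' (s : ℝ) (hs : 0 < s) (d : ℕ) :
    (1 / Real.sqrt s) ^ d = s ^ (-((d : ℝ) / 2)) := by
  rw [Real.sqrt_eq_rpow, one_div, ← Real.rpow_neg hs.le, ← Real.rpow_natCast, ← Real.rpow_mul hs.le]
  congr 1
  ring

theorem two_thirds {d : ℕ} (hd : 0 < d) : (1 / 2 : ℝ) * (1 + 1 / (4 * d)) ^ d ≤ 2 / 3 := by
  have hd0 : (0 : ℝ) < d := by exact_mod_cast hd
  have h1 : (1 + 1 / (4 * (d : ℝ))) ^ d ≤ Real.exp (1 / 4) := by
    have h2 : 1 + 1 / (4 * (d : ℝ)) ≤ Real.exp (1 / (4 * d)) := by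
      have := Real.add_one_le_exp (1 / (4 * (d : ℝ)))
      linarith
    calc (1 + 1 / (4 * (d : ℝ))) ^ d ≤ Real.exp (1 / (4 * d)) ^ d :=
          pow_le_pow_left₀ (by positivity) h2 d
      _ = Real.exp (1 / 4) := by
          rw [← Real.exp_nat_mul]
          congr 1
          field_simp
  have h2 : Real.exp (1 / 4) ≤ 4 / 3 := by
    have h3 : (3 : ℝ) / 4 ≤ Real.exp (-(1 / 4)) := by
      have := Real.add_one_le_exp (-(1 / 4 : ℝ))
      linarith
    rw [Real.exp_neg, ← one_div, le_div_iff₀ (Real.exp_pos _)] at h3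
    linarith
  linarith

/-- In dimension `d ≥ 3` the conditional escape probability is bounded below, `t ≥ 1`. -/
theorem escape_ge_one (d : ℕ) (hd : 3 ≤ d) : ∃ c : ℝ, 0 < c ∧ ∀ (L : ℕ) [NeZero L], 3 ≤ L →
    ∀ t : ℝ, 1 ≤ t → ∀ (A : Finset (Fin d → ZMod L)), 2 * A.card ≤ L ^ d → ∀ x ∈ A,
      c * prob (nnRate d L) t (Free (A.erase x)) ≤ prob (nnRate d L) t (Free A) := by
  have hd0 : (0 : ℝ) < d := by exact_mod_cast (show 0 < d by omega)
  have hd3 : (3 : ℝ) ≤ d := by exact_mod_cast hd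
  have hsum : Summable fun n : ℕ => 1 / (n : ℝ) ^ ((d : ℝ) / 2) :=
    Real.summable_one_div_nat_rpow.2 (by linarith)
  obtain ⟨Z, hZ⟩ : ∃ Z : ℝ, Z = ∑' n : ℕ, 1 / (n : ℝ) ^ ((d : ℝ) / 2) := ⟨_, rfl⟩
  have hZ0 : 0 ≤ Z := by rw [hZ]; exact tsum_nonneg fun n => by positivity
  obtain ⟨S, hSdef⟩ : ∃ S : ℝ, S = 1 + 2 ^ d * (16 * (d : ℝ) ^ 2 + Z) := ⟨_, rfl⟩
  have hS0 : 0 < S := by rw [hSdef]; positivity
  refine ⟨1 / (3 * S), by positivity, fun L _ hL t ht A hA x hx => ?_⟩
  have ht0 : 0 < t := by linarith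
  have hLpos : (0 : ℝ) < L := by exact_mod_cast (show 0 < L by omega)
  have hL1 : (1 : ℝ) ≤ L := by exact_mod_cast (show 1 ≤ L by omega)
  have hne : A ≠ Finset.univ := by
    intro h
    rw [h, Finset.card_univ, Fintype.card_fun, ZMod.card, Fintype.card_fin] at hA
    have : 0 < L ^ d := by positivity
    omega
  have hpos := torus_free_pos hL ht0 hne
  have hnn := qq_nonneg (J := nnRate d L) nn_nonneg ht0.le
  obtain ⟨K, hKdef⟩ : ∃ K : ℕ, K = 16 * d ^ 2 * L ^ 2 := ⟨_, rfl⟩
  have hK0 : 0 < K := by rw [hKdef]; positivity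
  have hpow : ∀ (k : ℕ) (a b : Fin d → ZMod L), (qq (nnRate d L) t ^ k) a b =
      qq (nnRate d L) (k * t) a b := fun k a b => by
    rw [qq_pow nn_symm (nn_diag hL)]
  have hker : ∀ k : ℕ, 0 < k → ∀ a b, (qq (nnRate d L) t ^ k) a b ≤
      (1 / L + 1 / Real.sqrt (k * t)) ^ d := by
    intro k hk a b
    rw [hpow]
    have : (0 : ℝ) < k := by exact_mod_cast hk
    exact qq_torus hL (by positivity) a b
  -- the tail
  have htail : ∀ a, ∑ b ∈ A, (qq (nnRate d L) t ^ K) a b ≤ 2 / 3 := by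
    intro a
    have h1 : 1 / Real.sqrt (K * t) ≤ 1 / (4 * d) * (1 / L) := by
      have h2 : 4 * d * L ≤ Real.sqrt (K * t) := by
        refine Real.le_sqrt_of_sq_le ?_
        have h3 : (K : ℝ) = 16 * d ^ 2 * L ^ 2 := by rw [hKdef]; push_cast; ring
        rw [h3]
        nlinarith [mul_pos (mul_pos hd0 hd0) (mul_pos hLpos hLpos)]
      rw [div_mul_div_comm, one_mul]
      exact one_div_le_one_div_of_le (by positivity) h2
    calc ∑ b ∈ A, (qq (nnRate d L) t ^ K) a b
        ≤ ∑ _b ∈ A, (1 / L + 1 / Real.sqrt (K * t)) ^ d :=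
          Finset.sum_le_sum fun b _ => hker K hK0 a b
      _ = A.card * (1 / L + 1 / Real.sqrt (K * t)) ^ d := by
          rw [Finset.sum_const, nsmul_eq_mul]
      _ ≤ ((L : ℝ) ^ d / 2) * (1 / L + 1 / (4 * d) * (1 / L)) ^ d := by
          refine mul_le_mul ?_ ?_ (by positivity) (by positivity)
          · have h2 : (2 : ℝ) * A.card ≤ (L : ℝ) ^ d := by exact_mod_cast hA
            linarith
          · exact pow_le_pow_left₀ (by positivity) (by linarith) d
      _ = (1 / 2 : ℝ) * (1 + 1 / (4 * d)) ^ d := by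
          have h2 : (1 / (L : ℝ) + 1 / (4 * d) * (1 / L)) = (1 + 1 / (4 * d)) / L := by ring
          rw [h2, div_pow]
          field_simp
      _ ≤ 2 / 3 := two_thirds (by omega)
  -- the Green function
  have hgreen : ∀ a, ∑ k ∈ Finset.range K, (qq (nnRate d L) t ^ k) a x ≤ S := by
    intro a
    rw [Finset.range_eq_Ico, Finset.sum_eq_sum_Ico_succ_bot hK0]
    have h1 : (qq (nnRate d L) t ^ 0) a x ≤ 1 := by
      rw [pow_zero, Matrix.one_apply]
      split_ifs <;> norm_num
    have h2 : ∑ k ∈ Finset.Ico 1 K, (qq (nnRate d L) t ^ k) a x ≤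
        2 ^ d * (16 * (d : ℝ) ^ 2 + Z) := by
      calc ∑ k ∈ Finset.Ico 1 K, (qq (nnRate d L) t ^ k) a x
          ≤ ∑ k ∈ Finset.Ico 1 K, 2 ^ d * ((1 / (L : ℝ)) ^ d + 1 / (k : ℝ) ^ ((d : ℝ) / 2)) := by
            refine Finset.sum_le_sum fun k hk => ?_
            have hk1 : 1 ≤ k := (Finset.mem_Ico.1 hk).1
            have hk0 : (0 : ℝ) < k := by exact_mod_cast hk1
            refine (hker k hk1 a x).trans ((add_pow_le (by positivity) (by positivity) d).trans ?_)
            rw [sqrt_pow' _ (by positivity)]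
            refine mul_le_mul (pow_le_pow_right₀ (by norm_num) (by omega)) ?_ (by positivity)
              (by positivity)
            refine add_le_add le_rfl ?_
            rw [Real.rpow_neg (by positivity), ← one_div]
            refine one_div_le_one_div_of_le (by positivity) ?_
            exact Real.rpow_le_rpow hk0.le (by nlinarith) (by positivity)
        _ = 2 ^ d * (((Finset.Ico 1 K).card : ℝ) * (1 / (L : ℝ)) ^ d +
              ∑ k ∈ Finset.Ico 1 K, 1 / (k : ℝ) ^ ((d : ℝ) / 2)) := by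
            rw [← Finset.mul_sum, Finset.sum_add_distrib, Finset.sum_const, nsmul_eq_mul]
        _ ≤ 2 ^ d * (16 * (d : ℝ) ^ 2 + Z) := by
            refine mul_le_mul_of_nonneg_left (add_le_add ?_ ?_) (by positivity)
            · rw [Nat.card_Ico]
              have h3 : ((K - 1 : ℕ) : ℝ) ≤ 16 * d ^ 2 * L ^ 2 := by
                have : ((K - 1 : ℕ) : ℝ) ≤ (K : ℝ) := by exact_mod_cast Nat.sub_le _ _
                refine this.trans (le_of_eq ?_)
                rw [hKdef]; push_cast; ring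
              have h4 : (1 / (L : ℝ)) ^ d ≤ (1 / (L : ℝ)) ^ 2 := by
                refine pow_le_pow_of_le_one (by positivity) ?_ (by omega)
                rw [div_le_one hLpos]; exact hL1
              calc ((K - 1 : ℕ) : ℝ) * (1 / (L : ℝ)) ^ d
                  ≤ (16 * d ^ 2 * L ^ 2) * (1 / (L : ℝ)) ^ 2 :=
                    mul_le_mul h3 h4 (by positivity) (by positivity)
                _ = 16 * (d : ℝ) ^ 2 := by field_simp
            · rw [hZ]
              exact hsum.sum_le_tsum _ fun m _ => by positivity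
    rw [hSdef]
    exact add_le_add h1 h2
  have hdet : (1 - stp A (qq (nnRate d L) t) : Matrix _ _ ℝ).det ≠ 0 := by
    rw [← prob_free nn_symm (nn_diag hL)]
    exact hpos.ne'
  have h1 := green_le hnn A hx hdet K hgreen htail
  have h2 := green_eq (J := nnRate d L) nn_symm (nn_diag hL) t A hx hpos.ne'
  rw [h2, one_div, inv_mul_le_iff₀ (by positivity)]
  exact mul_le_mul_of_nonneg_right h1 hpos.le

/-- In dimension `d ≥ 3` the conditional escape probability is at least `c min(1, t)`. -/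
theorem escape_ge (d : ℕ) (hd : 3 ≤ d) : ∃ c : ℝ, 0 < c ∧ ∀ (L : ℕ) [NeZero L], 3 ≤ L →
    ∀ t : ℝ, 0 < t → ∀ (A : Finset (Fin d → ZMod L)), 2 * A.card ≤ L ^ d → ∀ x ∈ A,
      c * min 1 t * prob (nnRate d L) t (Free (A.erase x)) ≤ prob (nnRate d L) t (Free A) := by
  obtain ⟨c, hc, h⟩ := escape_ge_one d hd
  refine ⟨c, hc, fun L _ hL t ht A hA x hx => ?_⟩
  have hne : A ≠ Finset.univ := by
    intro h
    rw [h, Finset.card_univ, Fintype.card_fun, ZMod.card, Fintype.card_fin] at hA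
    have : 0 < L ^ d := by positivity
    omega
  rcases le_total 1 t with h1 | h1
  · rw [min_eq_left h1, mul_one]
    exact h L hL t h1 A hA x hx
  · rw [min_eq_right h1]
    have hpos := torus_free_pos hL ht hne
    have hpos1 := torus_free_pos hL one_pos hne
    obtain ⟨f, hf, hfx, hfe⟩ := escape_attained (J := nnRate d L) nn_nonneg nn_symm (nn_diag hL)
      ht.le hx hpos
    have h2 := en_ge (J := nnRate d L) nn_symm (nn_diag hL) f ht.le h1
    have h3 := escape_le (J := nnRate d L) nn_nonneg nn_symm (nn_diag hL) zero_le_one hx hf hfx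
    have h4 := h L hL 1 le_rfl A hA x hx
    have h5 : 0 < prob (nnRate d L) 1 (Free (A.erase x)) :=
      hpos1.trans_le (prob_mono nn_nonneg zero_le_one fun g hg => ((free_iff hx g).1 hg).1)
    have h6 : c ≤ en (qq (nnRate d L) 1) f := le_of_mul_le_mul_right (h4.trans h3) h5
    rw [hfe]
    refine mul_le_mul_of_nonneg_right ?_ (prob_nonneg nn_nonneg ht.le _)
    nlinarith

end torus

end Pool.Agent.Q289.DI
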