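import Pool.Agent.Q289.DI.Cyc

/-!
# No cycle in `A`: exact formulas, relation to the random walk
-/

set_option autoImplicit false

namespace Pool.Agent.Q289.DI

open Finset Equiv Matrix Filter
open scoped Topology
open Pool.Agent.Y998.ST hiding E

section exact

variable {V : Type} [Fintype V] [DecidableEq V]

open Classical in
/-- The probability of an event under random stirring at time `t`. -/
noncomputable def prob (J : V → V → ℝ) (t : ℝ) (S : Perm V → Prop) : ℝ :=
  stirExp J t fun g => if S g then 1 else 0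

theorem prob_nonneg {J : V → V → ℝ} (hJ : ∀ x y, 0 ≤ J x y) {t : ℝ} (ht : 0 ≤ t)
    (S : Perm V → Prop) : 0 ≤ prob J t S := by
  classical
  unfold prob
  exact exp_nonneg hJ ht fun g => by split_ifs <;> norm_num

theorem prob_mono {J : V → V → ℝ} (hJ : ∀ x y, 0 ≤ J x y) {t : ℝ} (ht : 0 ≤ t)
    {S T : Perm V → Prop} (h : ∀ g, S g → T g) : prob J t S ≤ prob J t T := by
  classical
  unfold prob
  refine exp_mono hJ ht fun g => ?_
  by_cases h1 : S g
  · rw [if_pos h1, if_pos (h g h1)]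
  · rw [if_neg h1]; split_ifs <;> norm_num

/-- the probability that no cycle is contained in `A` -/
theorem prob_free {J : V → V → ℝ} (hs : ∀ x y, J x y = J y x) (h0 : ∀ x, J x x = 0) (t : ℝ)
    (A : Finset V) : prob J t (Free A) = (1 - stp A (qq J t) : Matrix V V ℝ).det := by
  classical
  have h1 := exp_det hs h0 1 (-Matrix.diagonal (fun a => if a ∈ A then 1 else 0)) t
  have h2 : ∀ P : Matrix V V ℝ, (1 + -Matrix.diagonal (fun a => if a ∈ A then (1 : ℝ) else 0) * P) =
      1 - stp A P := by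
    intro P
    rw [stp_eq, Matrix.neg_mul, ← sub_eq_add_neg]
  rw [h2] at h1
  rw [← h1]
  unfold prob
  congr 1
  funext g
  rw [h2]
  exact (det_pm' A g).symm

theorem prob_exit {J : V → V → ℝ} (hs : ∀ x y, J x y = J y x) (h0 : ∀ x, J x x = 0) (t : ℝ)
    (A : Finset V) (x y : V) (hy : y ∉ A) (z : ℝ) :
    prob J t (Free A) - z * prob J t (fun g => Free A g ∧ ExitAt A g x y) =
      (NN A x y z (qq J t)).det := by
  classical
  have h1 := exp_det hs h0 (1 - z • vecMulVec (Pi.single y 1) (Pi.single x 1))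
    (-Matrix.diagonal (fun a => if a ∈ A then 1 else 0)) t
  have h2 : ∀ P : Matrix V V ℝ, (1 - z • vecMulVec (Pi.single y 1) (Pi.single x 1) +
      -Matrix.diagonal (fun a => if a ∈ A then (1 : ℝ) else 0) * P) = NN A x y z P := by
    intro P
    unfold NN
    rw [stp_eq, Matrix.neg_mul]
    abel
  rw [h2] at h1
  rw [← h1]
  unfold prob stirExp
  rw [Finset.mul_sum, ← Finset.sum_sub_distrib]
  refine Finset.sum_congr rfl fun g _ => ?_
  have h3 := det_pm A g x y hy z
  unfold pm at h3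
  simp only
  rw [h2, h3]
  ring_nf

end exact

section neumann

variable {V : Type} [Fintype V] [DecidableEq V]

/-- Neumann series for substochastic matrices. -/
theorem neumann {S : Matrix V V ℝ} (hS : ∀ a b, 0 ≤ S a b) (hr : ∀ a, ∑ b, S a b ≤ 1)
    (hd : (1 - S).det ≠ 0) (a b : V) : HasSum (fun n : ℕ => (S ^ n) a b) ((1 - S)⁻¹ a b) := by
  have hu : IsUnit (1 - S).det := isUnit_iff_ne_zero.2 hd
  -- row sums
  obtain ⟨r, hrdef⟩ : ∃ r : ℕ → V → ℝ, r = fun n => (S ^ n) *ᵥ (fun _ => 1) := ⟨_, rfl⟩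
  have hpn : ∀ n a b, 0 ≤ (S ^ n) a b := fun n a b => pow_nonneg' hS n a b
  have hr0 : ∀ n a, 0 ≤ r n a := by
    intro n a
    rw [hrdef]
    simp only [mulVec, dotProduct, mul_one]
    exact Finset.sum_nonneg fun b _ => hpn n a b
  have hanti : ∀ a, Antitone fun n => r n a := by
    intro a
    refine antitone_nat_of_succ_le fun n => ?_
    have h1 : r (n + 1) a = ∑ b, (S ^ n) a b * ∑ c, S b c := by
      rw [hrdef]
      simp only
      rw [pow_succ, ← Matrix.mulVec_mulVec]
      simp only [mulVec, dotProduct, mul_one]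
    have h2 : r n a = ∑ b, (S ^ n) a b * 1 := by
      rw [hrdef]
      simp only [mulVec, dotProduct]
    rw [h1, h2]
    exact Finset.sum_le_sum fun b _ => mul_le_mul_of_nonneg_left (hr b) (hpn n a b)
  have hlim : ∀ a, ∃ l, Tendsto (fun n => r n a) atTop (𝓝 l) := fun a =>
    ⟨_, tendsto_atTop_ciInf (hanti a) ⟨0, by rintro _ ⟨n, rfl⟩; exact hr0 n a⟩⟩
  choose l hl using hlim
  have hl0 : l = 0 := by
    have h1 : (1 - S) *ᵥ l = 0 := by
      funext a
      rw [Matrix.sub_mulVec, Matrix.one_mulVec, Pi.sub_apply, Pi.zero_apply]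
      have h2 : Tendsto (fun n => r (n + 1) a) atTop (𝓝 (l a)) :=
        (tendsto_add_atTop_iff_nat 1).2 (hl a)
      have h3 : Tendsto (fun n => r (n + 1) a) atTop (𝓝 ((S *ᵥ l) a)) := by
        have h4 : (fun n => r (n + 1) a) = fun n => ∑ b, S a b * r n b := by
          funext n
          rw [hrdef]
          simp only
          rw [pow_succ', ← Matrix.mulVec_mulVec]
          rfl
        rw [h4]
        exact tendsto_finsetSum _ fun b _ => (hl b).const_mul _
      rw [tendsto_nhds_unique h2 h3, sub_self]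
    have h2 := Matrix.eq_zero_of_mulVec_eq_zero hd h1
    exact h2
  have hpow : ∀ a b, Tendsto (fun n => (S ^ n) a b) atTop (𝓝 0) := by
    intro a b
    refine squeeze_zero (fun n => hpn n a b) (fun n => ?_) (by
      have := hl a
      rw [hl0] at this
      exact this)
    rw [hrdef]
    simp only [mulVec, dotProduct, mul_one]
    exact Finset.single_le_sum (fun c _ => hpn n a c) (Finset.mem_univ b)
  rw [hasSum_iff_tendsto_nat_of_nonneg (fun n => hpn n a b)]
  have h1 : ∀ n, ∑ i ∈ Finset.range n, (S ^ i) a b = ((1 - S)⁻¹ * (1 - S ^ n)) a b := by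
    intro n
    have h2 : (1 - S) * ∑ i ∈ Finset.range n, S ^ i = 1 - S ^ n := mul_neg_geom_sum S n
    rw [← h2, Matrix.nonsing_inv_mul_cancel_left _ _ hu, Matrix.sum_apply]
  simp only [h1]
  have h2 : Tendsto (fun n => ∑ c, (1 - S)⁻¹ a c * (1 - S ^ n : Matrix V V ℝ) c b) atTop
      (𝓝 (∑ c, (1 - S)⁻¹ a c * (1 : Matrix V V ℝ) c b)) := by
    refine tendsto_finsetSum _ fun c _ => Tendsto.const_mul _ ?_
    have h3 : (fun n => (1 - S ^ n : Matrix V V ℝ) c b) = fun n => (1 : Matrix V V ℝ) c b - (S ^ n) c b := by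
      funext n; rw [Matrix.sub_apply]
    rw [h3]
    have h4 := (tendsto_const_nhds (x := (1 : Matrix V V ℝ) c b)).sub (hpow c b)
    rwa [sub_zero] at h4
  have h3 : ∑ c, (1 - S)⁻¹ a c * (1 : Matrix V V ℝ) c b = (1 - S)⁻¹ a b := by
    rw [← Matrix.mul_apply, Matrix.mul_one]
  rw [h3] at h2
  refine h2.congr fun n => ?_
  rw [Matrix.mul_apply]

end neumann

section walk

variable {V : Type} [Fintype V] [DecidableEq V]

omit [Fintype V] in
theorem stp_nonneg {P : Matrix V V ℝ} (hP : ∀ a b, 0 ≤ P a b) (A : Finset V) (a b : V) :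
    0 ≤ stp A P a b := by
  unfold stp
  split_ifs
  · exact hP a b
  · exact le_rfl

theorem stp_row {P : Matrix V V ℝ} (hr : ∀ a, ∑ b, P a b = 1) (A : Finset V) (a : V) :
    ∑ b, stp A P a b ≤ 1 := by
  unfold stp
  by_cases h : a ∈ A
  · simp only [if_pos h]; exact (hr a).le
  · simp only [if_neg h, Finset.sum_const_zero]; norm_num

/-- The exit law given that no cycle is contained in `A` is the one of the random walk. -/
theorem exit_law {J : V → V → ℝ} (hJ : ∀ x y, 0 ≤ J x y) (hs : ∀ x y, J x y = J y x)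
    (h0 : ∀ x, J x x = 0) {t : ℝ} (ht : 0 ≤ t) (A : Finset V) (x y : V) (hy : y ∉ A)
    (hp : prob J t (Free A) ≠ 0) :
    HasSum (fun n : ℕ => (stp A (qq J t) ^ n) x y)
      (prob J t (fun g => Free A g ∧ ExitAt A g x y) / prob J t (Free A)) := by
  have hd : (1 - stp A (qq J t) : Matrix V V ℝ).det ≠ 0 := by
    rwa [← prob_free hs h0]
  have h1 := neumann (stp_nonneg (qq_nonneg hJ ht) A) (stp_row (qq_row J t) A) hd x y
  have hu : IsUnit (1 - stp A (qq J t) : Matrix V V ℝ).det := isUnit_iff_ne_zero.2 hd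
  have h2 : (1 - stp A (qq J t)) *ᵥ ((1 - stp A (qq J t))⁻¹ *ᵥ Pi.single y 1) =
      Pi.single y 1 := by
    rw [Matrix.mulVec_mulVec, Matrix.mul_nonsing_inv _ hu, Matrix.one_mulVec]
  have h3 := NN_factor A x y 1 (qq J t) _ h2
  have h4 := prob_exit hs h0 t A x y hy 1
  rw [h3, ← prob_free hs h0] at h4
  have h5 : ((1 - stp A (qq J t))⁻¹ *ᵥ Pi.single y 1) x = (1 - stp A (qq J t))⁻¹ x y := by
    simp
  rw [h5] at h4
  have h6 : prob J t (fun g => Free A g ∧ ExitAt A g x y) / prob J t (Free A) =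
      (1 - stp A (qq J t))⁻¹ x y := by
    rw [div_eq_iff hp]
    linarith
  rw [h6]
  exact h1

/-- the orbit of `x` leaves `A` -/
def Esc (A : Finset V) (g : Perm V) (x : V) : Prop := ∃ n : ℕ, (g ^ n) x ∉ A

omit [Fintype V] in
theorem free_iff {A : Finset V} {x : V} (hx : x ∈ A) (g : Perm V) :
    Free A g ↔ Free (A.erase x) g ∧ Esc A g x := by
  constructor
  · intro h
    refine ⟨fun v hv => ?_, h x hx⟩
    obtain ⟨n, hn⟩ := h v (Finset.mem_of_mem_erase hv)
    exact ⟨n, fun h' => hn (Finset.mem_of_mem_erase h')⟩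
  · rintro ⟨h1, m, hm⟩ v hv
    by_cases hvx : v = x
    · rw [hvx]; exact ⟨m, hm⟩
    · obtain ⟨n, hn⟩ := h1 v (Finset.mem_erase.2 ⟨hvx, hv⟩)
      rw [Finset.mem_erase, not_and_or, not_not] at hn
      rcases hn with hn | hn
      · refine ⟨m + n, ?_⟩
        rw [pow_add, Perm.mul_apply, hn]
        exact hm
      · exact ⟨n, hn⟩

theorem prob_split {J : V → V → ℝ} (t : ℝ) {A : Finset V} {x : V} (hx : x ∈ A) :
    prob J t (fun g => Free (A.erase x) g ∧ Esc A g x) = prob J t (Free A) ∧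
    prob J t (fun g => Free (A.erase x) g ∧ ¬ Esc A g x) =
      prob J t (Free (A.erase x)) - prob J t (Free A) := by
  classical
  have h1 : (fun g => Free (A.erase x) g ∧ Esc A g x) = Free A := by
    funext g
    exact propext (free_iff hx g).symm
  refine ⟨by rw [h1], ?_⟩
  rw [← h1]
  unfold prob stirExp
  rw [← Finset.sum_sub_distrib]
  refine Finset.sum_congr rfl fun g _ => ?_
  by_cases h2 : Free (A.erase x) g <;> by_cases h3 : Esc A g x <;> simp [h2, h3]

/-- The conditional probability that the cycle of `x` stays in `A` is the return probability of the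
random walk. -/
theorem return_law {J : V → V → ℝ} (hJ : ∀ x y, 0 ≤ J x y) (hs : ∀ x y, J x y = J y x)
    (h0 : ∀ x, J x x = 0) {t : ℝ} (ht : 0 ≤ t) (A : Finset V) (x : V) (hx : x ∈ A)
    (hp : prob J t (Free (A.erase x)) ≠ 0) :
    HasSum (fun n : ℕ => (qq J t * stp (A.erase x) (qq J t) ^ n) x x)
      (prob J t (fun g => Free (A.erase x) g ∧ ¬ Esc A g x) / prob J t (Free (A.erase x))) := by
  obtain ⟨R, hR⟩ : ∃ R : Matrix V V ℝ, R = 1 - stp (A.erase x) (qq J t) := ⟨_, rfl⟩
  have hd : R.det ≠ 0 := by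
    rw [hR]
    rwa [← prob_free hs h0]
  have hu : IsUnit R.det := isUnit_iff_ne_zero.2 hd
  have h1 : ∀ a, HasSum (fun n : ℕ => (stp (A.erase x) (qq J t) ^ n) a x) (R⁻¹ a x) := by
    intro a
    rw [hR]
    rw [hR] at hd
    exact neumann (stp_nonneg (qq_nonneg hJ ht) _) (stp_row (qq_row J t) _) hd a x
  have h2 : HasSum (fun n : ℕ => (qq J t * stp (A.erase x) (qq J t) ^ n) x x)
      (∑ a, qq J t x a * R⁻¹ a x) := by
    have h3 := hasSum_sum (s := (Finset.univ : Finset V)) fun a _ => (h1 a).mul_left (qq J t x a)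
    refine h3.congr_fun ?_
    intro n
    rw [Matrix.mul_apply]
  have h3 : (1 - stp A (qq J t) : Matrix V V ℝ) = R * (1 + replicateCol Unit
      (-(R⁻¹ *ᵥ (Pi.single x 1 : V → ℝ))) * replicateRow Unit (qq J t x)) := by
    rw [Matrix.mul_add, Matrix.mul_one, ← Matrix.mul_assoc]
    have h4 : R * replicateCol Unit (-(R⁻¹ *ᵥ (Pi.single x 1 : V → ℝ))) =
        replicateCol Unit (-(Pi.single x 1 : V → ℝ)) := by
      have h5 : R *ᵥ (R⁻¹ *ᵥ (Pi.single x 1 : V → ℝ)) = Pi.single x 1 := by
        rw [Matrix.mulVec_mulVec, Matrix.mul_nonsing_inv _ hu, Matrix.one_mulVec]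
      have h6 : replicateCol Unit (-(Pi.single x 1 : V → ℝ)) =
          replicateCol Unit (R *ᵥ (-(R⁻¹ *ᵥ (Pi.single x 1 : V → ℝ)))) := by
        rw [Matrix.mulVec_neg, h5]
      rw [h6]
      ext i j
      simp only [Matrix.mul_apply, replicateCol_apply]
      rfl
    rw [h4, hR]
    ext a b
    simp only [Matrix.sub_apply, Matrix.add_apply, Matrix.mul_apply, replicateCol_apply,
      replicateRow_apply, Pi.neg_apply, Finset.univ_unique, Finset.sum_singleton]
    unfold stp
    by_cases hax : a = x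
    · subst hax
      rw [if_pos hx, if_neg (Finset.notMem_erase _ _), Pi.single_eq_same]
      ring
    · rw [Pi.single_eq_of_ne hax]
      by_cases ha : a ∈ A
      · rw [if_pos ha, if_pos (Finset.mem_erase.2 ⟨hax, ha⟩)]; ring
      · rw [if_neg ha, if_neg (fun h => ha (Finset.mem_of_mem_erase h))]; ring
  have h4 : prob J t (Free A) = prob J t (Free (A.erase x)) * (1 - ∑ a, qq J t x a * R⁻¹ a x) := by
    rw [prob_free hs h0, prob_free hs h0, h3, det_mul, det_one_add_replicateCol_mul_replicateRow,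
      ← hR]
    congr 1
    have h5 : ∀ a, (R⁻¹ *ᵥ (Pi.single x 1 : V → ℝ)) a = R⁻¹ a x := by intro a; simp
    simp only [dotProduct, Pi.neg_apply, h5, mul_neg, Finset.sum_neg_distrib]
    ring
  rw [(prob_split t hx).2]
  have h5 : (prob J t (Free (A.erase x)) - prob J t (Free A)) / prob J t (Free (A.erase x)) =
      ∑ a, qq J t x a * R⁻¹ a x := by
    rw [div_eq_iff hp, h4]
    ring
  rw [h5]
  exact h2

end walk

end Pool.Agent.Q289.DI
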